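import Pool.Agent.H373R2.T7.SysMain
import Pool.Agent.R503.W.Bvh

/-! Primes with conditions modulo squarefree numbers: the theorem of Bombieri and Vinogradov. -/

set_option autoImplicit false

namespace Pool.Agent.NH18.QP

open Finset
open Pool.Agent.H373R2.T7
open Pool.Agent.H442R2.KF (piN piAP Er)

open Classical in
/-- the reduced classes with the conditions -/
noncomputable def RS (Q : ℕ → ℕ → Prop) (S : Finset ℕ) : Finset ℕ :=
  (range (∏ p ∈ S, p)).filter (fun b => ∀ p ∈ S, ¬ p ∣ b ∧ Q p b)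

open Classical in
/-- the number of the primes `≤ y` with the conditions -/
noncomputable def cnt (Q : ℕ → ℕ → Prop) (y : ℕ) (S : Finset ℕ) : ℕ :=
  ((Icc 1 y).filter (fun n : ℕ => n.Prime ∧ ∀ p ∈ S, ¬ p ∣ n ∧ Q p n)).card

lemma RS_card (Q : ℕ → ℕ → Prop) {c : ℕ} (hQ : PerA Q c) (S : Finset ℕ) (hS : ∀ p ∈ S, p.Prime) :
    (RS Q S).card = ∏ p ∈ S, rhoA Q p := by
  classical
  have hS' : S ⊆ pz (S.sup id) := fun p hp => mem_pz.2 ⟨le_sup (f := id) hp, hS p hp⟩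
  have h := LSA_card Q hQ (S.sup id) S.card S hS' le_rfl
  rw [← h, LSA_eq Q _ _ S hS' le_rfl]
  unfold RS
  congr 1

lemma RS_coprime (Q : ℕ → ℕ → Prop) (S : Finset ℕ) (hS : ∀ p ∈ S, p.Prime) (b : ℕ) (hb : b ∈ RS Q S) :
    b < ∏ p ∈ S, p ∧ Nat.Coprime b (∏ p ∈ S, p) := by
  classical
  unfold RS at hb
  rw [mem_filter, mem_range] at hb
  refine ⟨hb.1, ?_⟩
  apply Nat.Coprime.prod_right
  intro p hp
  exact ((Nat.Prime.coprime_iff_not_dvd (hS p hp)).2 (hb.2 p hp).1).symm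

lemma cnt_err (Q : ℕ → ℕ → Prop) {c : ℕ} (hQ : PerA Q c) (y : ℕ) (S : Finset ℕ)
    (hSp : ∀ p ∈ S, p.Prime) :
    |(cnt Q y S : ℝ) - piN y * ∏ p ∈ S, ((rhoA Q p : ℝ) / (p - 1 : ℝ))| ≤
      ∑ b ∈ RS Q S, |Er y (∏ p ∈ S, p) b| := by
  classical
  set d := ∏ p ∈ S, p with hd
  have hd1 : 1 ≤ d := Nat.pos_of_ne_zero (prod_ne_zero_iff.2 fun p hp => (hSp p hp).ne_zero)
  have hpd : ∀ p ∈ S, p ∣ d := fun p hp => dvd_prod_of_mem _ hp
  have hRS : RS Q S = (range d).filter (fun b => ∀ p ∈ S, ¬ p ∣ b ∧ Q p b) := by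
    unfold RS
    congr 1
  have h1 : (cnt Q y S : ℝ) = ∑ b ∈ RS Q S, (piAP y d b : ℝ) := by
    unfold cnt piAP
    rw [← Nat.cast_sum]
    congr 1
    rw [card_eq_sum_card_fiberwise (f := fun n => n % d) (t := RS Q S)]
    · apply sum_congr rfl
      intro b hb
      rw [hRS, mem_filter, mem_range] at hb
      congr 1
      ext n
      rw [mem_filter, mem_filter, mem_filter]
      constructor
      · rintro ⟨⟨h1, h2, h3⟩, h4⟩
        refine ⟨h1, h2, ?_⟩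
        unfold Nat.ModEq
        rw [h4, Nat.mod_eq_of_lt hb.1]
      · rintro ⟨h1, h2, h3⟩
        unfold Nat.ModEq at h3
        rw [Nat.mod_eq_of_lt hb.1] at h3
        refine ⟨⟨h1, h2, fun p hp => ?_⟩, h3⟩
        obtain ⟨h4, hi⟩ := hb.2 p hp
        rw [← h3] at h4 hi
        exact ⟨fun h5 => h4 ((dvd_mod_iff n d p (hpd p hp)).2 h5), (hQ.mod n d p (hpd p hp)).1 hi⟩
    · intro n hn
      rw [mem_coe, mem_filter] at hn
      rw [mem_coe, hRS, mem_filter, mem_range]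
      refine ⟨Nat.mod_lt _ hd1, fun p hp => ?_⟩
      obtain ⟨h3, hi⟩ := hn.2.2 p hp
      exact ⟨fun h4 => h3 ((dvd_mod_iff n d p (hpd p hp)).1 h4), (hQ.mod n d p (hpd p hp)).2 hi⟩
  have h2 : (piN y : ℝ) * ∏ p ∈ S, ((rhoA Q p : ℝ) / (p - 1 : ℝ)) =
      ∑ b ∈ RS Q S, (piN y : ℝ) / (Nat.totient d : ℝ) := by
    rw [sum_const, nsmul_eq_mul, RS_card Q hQ S hSp, hd, totient_prod S hSp, prod_div_distrib]
    push_cast
    have h3 : ∏ p ∈ S, ((p - 1 : ℕ) : ℝ) = ∏ p ∈ S, ((p : ℝ) - 1) := by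
      apply prod_congr rfl
      intro p hp
      rw [Nat.cast_sub (hSp p hp).one_le]
      push_cast
      ring
    rw [h3]
    ring
  rw [h1, h2, ← sum_sub_distrib]
  exact abs_sum_le_sum_abs _ _

/-- the worst class -/
lemma worst (y d : ℕ) (hd : 1 ≤ d) : ∃ b : ℕ, Nat.Coprime b d ∧
    ∀ b' < d, Nat.Coprime b' d → |Er y d b'| ≤ |Er y d b| := by
  classical
  have hne : ((range (d + 1)).filter (fun b => Nat.Coprime b d)).Nonempty :=
    ⟨1, by rw [mem_filter, mem_range]; exact ⟨by omega, Nat.coprime_one_left d⟩⟩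
  obtain ⟨b, hb, hmax⟩ := exists_max_image _ (fun b => |Er y d b|) hne
  rw [mem_filter] at hb
  refine ⟨b, hb.2, fun b' hb' hc => ?_⟩
  exact hmax b' (by rw [mem_filter, mem_range]; exact ⟨by omega, hc⟩)

/-- the sum of the error terms over the sets of primes with a bounded product -/
theorem bv_sets (κ : ℝ) (hκ : κ < 1 / 2) (c U : ℕ) (hc : 1 ≤ c) : ∃ C : ℝ, 0 < C ∧
    ∀ x : ℕ, 3 ≤ x → ∀ y ≤ x, ∀ Q : ℕ → ℕ → Prop, PerA Q c → ∀ P : Finset ℕ,
    (∀ p ∈ P, p.Prime) → ∀ F ⊆ P.powerset, (∀ S ∈ F, ((∏ p ∈ S, p : ℕ) : ℝ) ≤ (x : ℝ) ^ κ) →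
    ∑ S ∈ F, ∑ b ∈ RS Q S, |Er y (∏ p ∈ S, p) b| ≤ C * (x / Real.log x ^ U) := by
  classical
  obtain ⟨C, hC, hbv⟩ := Pool.Agent.R503.W.bv_weights κ hκ c U hc
  refine ⟨C, hC, fun x hx y hy Q hQ P hP F hF hFx => ?_⟩
  have hex : ∀ d : ℕ, ∃ b : ℕ, 1 ≤ d → (Nat.Coprime b d ∧
      ∀ b' < d, Nat.Coprime b' d → |Er y d b'| ≤ |Er y d b|) := by
    intro d
    by_cases hd : 1 ≤ d
    · obtain ⟨b, hb⟩ := worst y d hd
      exact ⟨b, fun _ => hb⟩
    · exact ⟨0, fun h => absurd h hd⟩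
  choose b hb using hex
  have h := hbv x hx b (fun d hd => (hb d hd).1) (fun _ => y) (fun _ => hy)
  have hFP : ∀ S ∈ F, ∀ p ∈ S, p.Prime := fun S hS p hp => hP p (mem_powerset.1 (hF hS) hp)
  have hF1 : ∀ S ∈ F, 1 ≤ ∏ p ∈ S, p := fun S hS =>
    Nat.pos_of_ne_zero (prod_ne_zero_iff.2 fun p hp => (hFP S hS p hp).ne_zero)
  have hinj : Set.InjOn (fun S : Finset ℕ => ∏ p ∈ S, p) (F : Set (Finset ℕ)) := by
    intro S hS T hT hST
    simp only at hST
    have h2 := Nat.primeFactors_prod (fun p hp => hFP S hS p hp)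
    have h3 := Nat.primeFactors_prod (fun p hp => hFP T hT p hp)
    rw [← h2, ← h3, hST]
  calc ∑ S ∈ F, ∑ b ∈ RS Q S, |Er y (∏ p ∈ S, p) b| ≤
      ∑ S ∈ F, (c : ℝ) ^ (∏ p ∈ S, p).primeFactors.card *
        |Er y (∏ p ∈ S, p) (b (∏ p ∈ S, p))| := by
        apply sum_le_sum
        intro S hS
        rw [Nat.primeFactors_prod (fun p hp => hFP S hS p hp)]
        calc ∑ b ∈ RS Q S, |Er y (∏ p ∈ S, p) b| ≤
            ∑ _b ∈ RS Q S, |Er y (∏ p ∈ S, p) (b (∏ p ∈ S, p))| := by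
              apply sum_le_sum
              intro b' hb'
              obtain ⟨h1, h2⟩ := RS_coprime Q S (hFP S hS) b' hb'
              exact (hb _ (hF1 S hS)).2 b' h1 h2
          _ = ((RS Q S).card : ℝ) * |Er y (∏ p ∈ S, p) (b (∏ p ∈ S, p))| := by
              rw [sum_const, nsmul_eq_mul]
          _ ≤ _ := by
              apply mul_le_mul_of_nonneg_right _ (abs_nonneg _)
              rw [RS_card Q hQ S (hFP S hS)]
              push_cast
              rw [← prod_const]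
              apply Finset.prod_le_prod
              · intro p _
                exact Nat.cast_nonneg _
              · intro p hp
                exact_mod_cast hQ.few p (hFP S hS p hp)
    _ = ∑ d ∈ F.image (fun S => ∏ p ∈ S, p), (c : ℝ) ^ d.primeFactors.card * |Er y d (b d)| := by
        rw [sum_image hinj]
    _ ≤ ∑ d ∈ Icc 1 ⌊(x : ℝ) ^ κ⌋₊, (c : ℝ) ^ d.primeFactors.card * |Er y d (b d)| := by
        apply sum_le_sum_of_subset_of_nonneg
        · intro d hd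
          rw [mem_image] at hd
          obtain ⟨S, hS, rfl⟩ := hd
          rw [mem_Icc]
          exact ⟨hF1 S hS, Nat.le_floor (hFx S hS)⟩
        · intro d _ _
          positivity
    _ ≤ C * (x / Real.log x ^ U) := h

end Pool.Agent.NH18.QP
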