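import Pool.Agent.Y882.KW.Core4
import Pool.Agent.NH18.QP.B1

/-! The weighted sieve over the primes, for conditions modulo primes. -/

set_option autoImplicit false

namespace Pool.Agent.NH18.QP

open Finset Filter
open Pool.Agent.H373R2.T7
open Pool.Agent.H442R2.KF (piN piAP Er)
open Pool.Agent.W23.DC
open Pool.Agent.Y882
open Pool.Agent.Y882.KW

/-- the primes in `(√Y, y]` -/
def JP (Y y : ℕ) : Finset ℕ := (Ioc (Nat.sqrt Y) y).filter Nat.Prime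

lemma JP_card (Y y : ℕ) (h : Nat.sqrt Y ≤ y) : ((JP Y y).card : ℝ) = piN y - piN (Nat.sqrt Y) := by
  classical
  unfold JP piN
  have h1 : (Icc 1 y).filter Nat.Prime = (Icc 1 (Nat.sqrt Y)).filter Nat.Prime ∪
      (Ioc (Nat.sqrt Y) y).filter Nat.Prime := by
    ext p
    rw [mem_union, mem_filter, mem_filter, mem_filter, mem_Icc, mem_Icc, mem_Ioc]
    constructor
    · rintro ⟨⟨h2, h3⟩, h4⟩
      by_cases h5 : p ≤ Nat.sqrt Y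
      · exact Or.inl ⟨⟨h2, h5⟩, h4⟩
      · exact Or.inr ⟨⟨by omega, h3⟩, h4⟩
    · rintro (⟨⟨h2, h3⟩, h4⟩ | ⟨⟨h2, h3⟩, h4⟩)
      · exact ⟨⟨h2, by omega⟩, h4⟩
      · exact ⟨⟨h4.one_le, h3⟩, h4⟩
  have h2 : ((Icc 1 y).filter Nat.Prime).card = ((Icc 1 (Nat.sqrt Y)).filter Nat.Prime).card +
      ((Ioc (Nat.sqrt Y) y).filter Nat.Prime).card := by
    rw [h1, card_union_of_disjoint]
    rw [disjoint_left]
    intro p hp hp'
    rw [mem_filter, mem_Icc] at hp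
    rw [mem_filter, mem_Ioc] at hp'
    omega
  have h3 : (((Icc 1 y).filter Nat.Prime).card : ℝ) = ((Icc 1 (Nat.sqrt Y)).filter Nat.Prime).card +
      ((Ioc (Nat.sqrt Y) y).filter Nat.Prime).card := by exact_mod_cast h2
  linarith

open Classical in
lemma JP_cnt (Q : ℕ → ℕ → Prop) (Y y : ℕ) (h : Nat.sqrt Y ≤ y) (T : Finset ℕ)
    (hT : ∀ p ∈ T, p.Prime ∧ p ≤ Nat.sqrt Y) :
    (((JP Y y).filter (fun n => ∀ p ∈ T, Q p n)).card : ℝ) = cnt Q y T - cnt Q (Nat.sqrt Y) T := by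
  unfold JP cnt
  have h1 : (Icc 1 y).filter (fun n : ℕ => n.Prime ∧ ∀ p ∈ T, ¬ p ∣ n ∧ Q p n) =
      (Icc 1 (Nat.sqrt Y)).filter (fun n : ℕ => n.Prime ∧ ∀ p ∈ T, ¬ p ∣ n ∧ Q p n) ∪
      ((Ioc (Nat.sqrt Y) y).filter Nat.Prime).filter (fun n => ∀ p ∈ T, Q p n) := by
    ext n
    rw [mem_union, mem_filter, mem_filter, mem_filter, mem_filter, mem_Icc, mem_Icc, mem_Ioc]
    constructor
    · rintro ⟨⟨h2, h3⟩, h4, h5⟩
      by_cases h6 : n ≤ Nat.sqrt Y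
      · exact Or.inl ⟨⟨h2, h6⟩, h4, h5⟩
      · exact Or.inr ⟨⟨⟨by omega, h3⟩, h4⟩, fun p hp => (h5 p hp).2⟩
    · rintro (⟨⟨h2, h3⟩, h4, h5⟩ | ⟨⟨⟨h2, h3⟩, h4⟩, h5⟩)
      · exact ⟨⟨h2, by omega⟩, h4, h5⟩
      · refine ⟨⟨h4.one_le, h3⟩, h4, fun p hp => ⟨?_, h5 p hp⟩⟩
        intro hd
        have h6 := (Nat.prime_dvd_prime_iff_eq (hT p hp).1 h4).1 hd
        have h7 := (hT p hp).2
        omega
  have h2 := congrArg card h1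
  rw [card_union_of_disjoint] at h2
  · have h3 : (((Icc 1 y).filter (fun n : ℕ => n.Prime ∧ ∀ p ∈ T, ¬ p ∣ n ∧ Q p n)).card : ℝ) =
        ((Icc 1 (Nat.sqrt Y)).filter (fun n : ℕ => n.Prime ∧ ∀ p ∈ T, ¬ p ∣ n ∧ Q p n)).card +
        (((Ioc (Nat.sqrt Y) y).filter Nat.Prime).filter (fun n => ∀ p ∈ T, Q p n)).card := by
      exact_mod_cast h2
    linarith
  · rw [disjoint_left]
    intro p hp hp'
    rw [mem_filter, mem_Icc] at hp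
    rw [mem_filter, mem_filter, mem_Ioc] at hp'
    omega

lemma PZ_facts (Y : ℕ) (hY : 2 ≤ Y) (w : ℝ) (p : ℕ) (hp : p ∈ PZ Y w) :
    p.Prime ∧ p ≤ Y ∧ (p : ℝ) < (Y : ℝ) ^ w := by
  unfold PZ at hp
  rw [mem_filter, mem_Icc] at hp
  exact ⟨hp.2.1, hp.1.2, (tt_lt Y p w hY hp.2.1.pos).1 hp.2.2⟩

lemma PZ_sqrt (Y : ℕ) (hY : 2 ≤ Y) (w : ℝ) (hw : w ≤ 1 / 2) (p : ℕ) (hp : p ∈ PZ Y w) :
    p ≤ Nat.sqrt Y := by
  obtain ⟨-, -, h⟩ := PZ_facts Y hY w p hp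
  have hYr : (1 : ℝ) ≤ Y := by exact_mod_cast (by omega : 1 ≤ Y)
  have h1 : (p : ℝ) < (Y : ℝ) ^ (1 / 2 : ℝ) :=
    lt_of_lt_of_le h (Real.rpow_le_rpow_of_exponent_le hYr hw)
  rw [Nat.le_sqrt]
  rw [← Real.sqrt_eq_rpow] at h1
  have h2 : (p : ℝ) * p ≤ Y := by
    have h3 : (0 : ℝ) ≤ p := Nat.cast_nonneg p
    have h4 := Real.mul_self_sqrt (show (0 : ℝ) ≤ Y by positivity)
    nlinarith
  exact_mod_cast h2

open Classical in
/-- **The weighted sieve over the primes.** -/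
theorem sieveP (k : ℕ) (hk : 1 ≤ k) (τ ζ υ aw bw τ' : ℝ) (hζ : 0 < ζ) (h2 : 2 * ζ < τ)
    (h4 : τ ≤ 4 * ζ) (hτ1 : τ ≤ 1) (hζυ : ζ ≤ υ) (hυτ : υ < τ) (ha : 0 ≤ aw) (hb : 0 ≤ bw)
    (hab : bw * υ ≤ aw)
    (hJ0 : ∫ x in ζ..υ, (aw - bw * x) / (τ - x) / x < Real.log (τ / ζ - 1) / τ)
    (h5 : τ < τ') (h6 : τ' < 1 / 2) : ∃ ε₁ η f : ℝ, 0 < ε₁ ∧ ε₁ ≤ ζ ∧ 0 < η ∧ 0 < f ∧
      ∀ U : ℕ, ∃ C : ℝ, 0 < C ∧ ∃ Y0 : ℕ, ∀ Y : ℕ, Y0 ≤ Y → ∀ y : ℕ, Nat.sqrt Y ≤ y → y ≤ Y →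
      ∀ Q : ℕ → ℕ → Prop, PerA Q k →
      Mer (pr Y ε₁ υ) (tt Y) (fun p => (rhoA Q p : ℝ) / ((p : ℝ) - 1)) ε₁ υ η →
      ∀ a : ℕ → ℕ, (∀ n ∈ JP Y y, ∀ p ∈ PZ Y υ, p ∣ a n ↔ Q p n) →
      f * (piN y - piN (Nat.sqrt Y)) * ∏ p ∈ PZ Y ε₁, (1 - (rhoA Q p : ℝ) / ((p : ℝ) - 1)) -
        C * (Y / Real.log Y ^ U) ≤ ∑ n ∈ JP Y y, WW Y ζ υ aw bw (a n) := by
  obtain ⟨ε₁, η, f, hε₁, hε₁ζ, -, hη, hf, Y1, HC⟩ :=
    core3 k τ ζ υ aw bw τ' 1 hζ h2 h4 hτ1 hζυ hυτ ha hb hab hJ0 h5 one_pos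
  refine ⟨ε₁, η, f, hε₁, hε₁ζ, hη, hf, fun U => ?_⟩
  obtain ⟨C1, hC1, hbv⟩ := bv_sets τ' h6 k (U + 1) hk
  refine ⟨10 * C1, by positivity, max Y1 3, ?_⟩
  intro Y hY y hy1 hy2 Q hQ hmer a hQa
  have hY1 : Y1 ≤ Y := (le_max_left _ _).trans hY
  have hY3 : 3 ≤ Y := (le_max_right _ _).trans hY
  have hYr : (3 : ℝ) ≤ Y := by exact_mod_cast hY3
  have hY0 : (0 : ℝ) < Y := by linarith
  have hlY : 0 < Real.log Y := Real.log_pos (by linarith)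
  obtain ⟨c, hcL, hcD, hcN, hcV⟩ := HC Y hY1
  set y0 : ℕ := Nat.sqrt Y with hy0
  have hy0Y : y0 ≤ Y := Nat.sqrt_le_self Y
  have hυ2 : υ ≤ 1 / 2 := by linarith
  have hPZ : ∀ w : ℝ, ∀ p ∈ PZ Y w, p.Prime := fun w p hp => (PZ_facts Y (by omega) w p hp).1
  set h : ℕ → ℝ := fun p => (rhoA Q p : ℝ) / ((p : ℝ) - 1) with hh
  have hp1 : ∀ p : ℕ, p.Prime → (0 : ℝ) < (p : ℝ) - 1 := by
    intro p hp
    have : (2 : ℝ) ≤ p := by exact_mod_cast hp.two_le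
    linarith
  have hV := hcV h (fun p hp => div_nonneg (Nat.cast_nonneg _) (hp1 p (hPZ _ p hp)).le) (by
    intro p hp
    have hpp := hPZ _ p hp
    rw [hh]
    simp only
    rw [div_le_one (hp1 p hpp)]
    have h7 : (rhoA Q p : ℝ) ≤ ((p - 1 : ℕ) : ℝ) := by exact_mod_cast rhoA_le Q p
    rw [Nat.cast_sub hpp.one_le] at h7
    exact_mod_cast h7) (by
    intro p hp _
    have hpp := hPZ _ p hp
    rw [hh]
    simp only
    apply div_le_div_of_nonneg_right _ (hp1 p hpp).le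
    exact_mod_cast hQ.few p hpp) hmer
  -- the sum over the primes
  set Jn : ℝ := (piN y : ℝ) - piN y0 with hJn
  have hJc := JP_card Y y hy1
  have hJ0' : 0 ≤ Jn := by
    rw [hJn, ← hJc]
    exact Nat.cast_nonneg _
  have hs1 : ∑ n ∈ JP Y y, VV (PZ Y υ) c (fun p => if p ∣ a n then 1 else 0) =
      ∑ T ∈ (PZ Y υ).powerset, c T * ((cnt Q y T : ℝ) - cnt Q y0 T) := by
    unfold VV
    rw [sum_comm]
    apply sum_congr rfl
    intro T hT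
    rw [mem_powerset] at hT
    rw [← mul_sum]
    congr 1
    rw [← JP_cnt Q Y y hy1 T (fun p hp => ⟨hPZ _ p (hT hp), PZ_sqrt Y (by omega) υ hυ2 p (hT hp)⟩)]
    rw [card_filter]
    push_cast
    apply sum_congr rfl
    intro n hn
    rw [prod_boole]
    congr 1
    apply propext
    constructor
    · intro h7 p hp
      exact (hQa n hn p (hT hp)).1 (h7 p hp)
    · intro h7 p hp
      exact (hQa n hn p (hT hp)).2 (h7 p hp)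
  have hs2 : |∑ T ∈ (PZ Y υ).powerset, c T * ((cnt Q y T : ℝ) - cnt Q y0 T) -
      Jn * VV (PZ Y υ) c h| ≤ 10 * C1 * (Y / Real.log Y ^ U) := by
    have e1 : ∑ T ∈ (PZ Y υ).powerset, c T * ((cnt Q y T : ℝ) - cnt Q y0 T) -
        Jn * VV (PZ Y υ) c h = ∑ T ∈ (PZ Y υ).powerset,
          c T * ((((cnt Q y T : ℝ) - piN y * ∏ p ∈ T, h p)) -
            (((cnt Q y0 T : ℝ) - piN y0 * ∏ p ∈ T, h p))) := by
      unfold VV
      rw [mul_sum, ← sum_sub_distrib]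
      apply sum_congr rfl
      intro T _
      rw [hJn]
      ring
    rw [e1]
    set F := (PZ Y υ).powerset.filter (fun T => c T ≠ 0) with hF
    have e2 : ∑ T ∈ (PZ Y υ).powerset,
          c T * ((((cnt Q y T : ℝ) - piN y * ∏ p ∈ T, h p)) -
            (((cnt Q y0 T : ℝ) - piN y0 * ∏ p ∈ T, h p))) = ∑ T ∈ F,
          c T * ((((cnt Q y T : ℝ) - piN y * ∏ p ∈ T, h p)) -
            (((cnt Q y0 T : ℝ) - piN y0 * ∏ p ∈ T, h p))) := by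
      rw [hF, sum_filter]
      apply sum_congr rfl
      intro T _
      split_ifs with h7
      · rfl
      · push Not at h7
        rw [h7, zero_mul]
    rw [e2]
    have hFs : F ⊆ (PZ Y υ).powerset := filter_subset _ _
    have hFD : ∀ S ∈ F, ((∏ p ∈ S, p : ℕ) : ℝ) ≤ (Y : ℝ) ^ τ' := by
      intro S hS
      rw [hF, mem_filter, mem_powerset] at hS
      exact hcD S hS.1 hS.2
    have b1 := hbv Y hY3 y hy2 Q hQ (PZ Y υ) (hPZ υ) F hFs hFD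
    have b2 := hbv Y hY3 y0 hy0Y Q hQ (PZ Y υ) (hPZ υ) F hFs hFD
    calc |∑ T ∈ F, c T * ((((cnt Q y T : ℝ) - piN y * ∏ p ∈ T, h p)) -
            (((cnt Q y0 T : ℝ) - piN y0 * ∏ p ∈ T, h p)))| ≤
        ∑ T ∈ F, 5 * Real.log Y * (∑ b ∈ RS Q T, |Er y (∏ p ∈ T, p) b| +
          ∑ b ∈ RS Q T, |Er y0 (∏ p ∈ T, p) b|) := by
          refine (abs_sum_le_sum_abs _ _).trans ?_
          apply sum_le_sum
          intro T hT
          have hTp : ∀ p ∈ T, p.Prime := fun p hp => hPZ υ p (mem_powerset.1 (hFs hT) hp)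
          rw [abs_mul]
          apply mul_le_mul (hcL T) _ (abs_nonneg _) (by positivity)
          refine (abs_sub _ _).trans ?_
          exact add_le_add (cnt_err Q hQ y T hTp) (cnt_err Q hQ y0 T hTp)
      _ = 5 * Real.log Y * (∑ T ∈ F, ∑ b ∈ RS Q T, |Er y (∏ p ∈ T, p) b| +
          ∑ T ∈ F, ∑ b ∈ RS Q T, |Er y0 (∏ p ∈ T, p) b|) := by
          rw [← mul_sum, sum_add_distrib]
      _ ≤ 5 * Real.log Y * (C1 * (Y / Real.log Y ^ (U + 1)) + C1 * (Y / Real.log Y ^ (U + 1))) := by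
          apply mul_le_mul_of_nonneg_left (add_le_add b1 b2) (by positivity)
      _ = 10 * C1 * (Y / Real.log Y ^ U) := by
          rw [pow_succ]
          field_simp
          ring
  have hs3 : ∑ n ∈ JP Y y, VV (PZ Y υ) c (fun p => if p ∣ a n then 1 else 0) ≤
      ∑ n ∈ JP Y y, WW Y ζ υ aw bw (a n) := sum_le_sum fun n _ => hcN (a n)
  have hs4 := neg_le_of_abs_le hs2
  have hs5 : Jn * (f * ∏ p ∈ PZ Y ε₁, (1 - h p)) ≤ Jn * VV (PZ Y υ) c h :=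
    mul_le_mul_of_nonneg_left hV hJ0'
  rw [hs1] at hs3
  have e3 : f * Jn * ∏ p ∈ PZ Y ε₁, (1 - h p) = Jn * (f * ∏ p ∈ PZ Y ε₁, (1 - h p)) := by ring
  rw [e3]
  linarith

end Pool.Agent.NH18.QP
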