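import Pool.Agent.Y882.SI.Quad
import Pool.Agent.Y882.SI.Sq
import Pool.Agent.NH18.QP.B2

/-! The local conditions for `q ^ 2 - 2` and `N - m q`. -/

set_option autoImplicit false

namespace Pool.Agent.NH18.QP

open Finset Filter
open Pool.Agent.H373R2.T7
open Pool.Agent.H442R2.KF (piN piAP Er)
open Pool.Agent.W23.DC
open Pool.Agent.Y882
open Pool.Agent.Y882.KW
open Pool.Agent.Y882.PX (ro ro_eq)
open Pool.Agent.Y882.SI

/-- the local condition -/
def Q2 (m N z p n : ℕ) : Prop := (p : ℤ) ∣ (n : ℤ) ^ 2 - 2 ∨ (p ≤ z ∧ (p : ℤ) ∣ (N : ℤ) - m * n)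

lemma ro_two (p : ℕ) : ro (QF (-2)) 0 p = ((range p).filter (fun n : ℕ => (p : ℤ) ∣ (n : ℤ) ^ 2 - 2)).card := by
  rw [ro_eq]
  congr 1
  apply filter_congr
  intro n _
  rw [QF_eval, add_zero]
  rfl

lemma Q2_per (m N z p n : ℕ) : Q2 m N z p n ↔ Q2 m N z p (n % p) := by
  unfold Q2
  have h0 : ((n : ℤ)) - ((n % p : ℕ) : ℤ) = p * ((n / p : ℕ) : ℤ) := by
    have := Nat.mod_add_div n p
    have h1 : ((n % p : ℕ) : ℤ) + p * ((n / p : ℕ) : ℤ) = n := by exact_mod_cast this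
    linarith
  have h1 : (p : ℤ) ∣ ((n : ℤ) ^ 2 - 2) - (((n % p : ℕ) : ℤ) ^ 2 - 2) := by
    refine ⟨((n / p : ℕ) : ℤ) * (n + ((n % p : ℕ) : ℤ)), ?_⟩
    linear_combination ((n : ℤ) + ((n % p : ℕ) : ℤ)) * h0
  have h2 : (p : ℤ) ∣ ((N : ℤ) - m * n) - ((N : ℤ) - m * ((n % p : ℕ) : ℤ)) := by
    refine ⟨-(m * ((n / p : ℕ) : ℤ)), ?_⟩
    linear_combination (-(m : ℤ)) * h0
  rw [dvd_iff_dvd_of_dvd_sub h1, dvd_iff_dvd_of_dvd_sub h2]

lemma lin_card (m N p : ℕ) (hp : p.Prime) (hc : N.Coprime m) :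
    ((range p).filter (fun n : ℕ => (p : ℤ) ∣ (N : ℤ) - m * n)).card ≤ 1 := by
  rw [card_le_one]
  intro a ha b hb
  rw [mem_filter, mem_range] at ha hb
  have hpp : Prime (p : ℤ) := Nat.prime_iff_prime_int.1 hp
  have h1 : (p : ℤ) ∣ m * ((a : ℤ) - b) := by
    have := dvd_sub hb.2 ha.2
    have e : (N : ℤ) - m * b - (N - m * a) = m * ((a : ℤ) - b) := by ring
    rwa [e] at this
  rcases hpp.dvd_or_dvd h1 with h | h
  · exfalso
    have h2 : (p : ℤ) ∣ N := by
      have := dvd_add ha.2 (h.mul_right (a : ℤ))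
      rwa [sub_add_cancel] at this
    exact Nat.Prime.not_coprime_iff_dvd.2 ⟨p, hp, by exact_mod_cast h2, by exact_mod_cast h⟩ hc
  · have h3 := Int.eq_zero_of_abs_lt_dvd h (by
      rw [abs_lt]
      constructor <;> omega)
    omega

lemma rhoA_le_ro (m N z p : ℕ) (hp : p.Prime) (hc : N.Coprime m) :
    rhoA (Q2 m N z) p ≤ ro (QF (-2)) 0 p + (if p ≤ z then 1 else 0) := by
  classical
  rw [ro_two]
  unfold rhoA
  have hsub : (range p).filter (fun r => ¬ p ∣ r ∧ Q2 m N z p r) ⊆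
      (range p).filter (fun n : ℕ => (p : ℤ) ∣ (n : ℤ) ^ 2 - 2) ∪
      (if p ≤ z then (range p).filter (fun n : ℕ => (p : ℤ) ∣ (N : ℤ) - m * n) else ∅) := by
    intro r hr
    rw [mem_filter] at hr
    rw [mem_union]
    rcases hr.2.2 with h | ⟨h1, h2⟩
    · exact Or.inl (mem_filter.2 ⟨hr.1, h⟩)
    · right
      rw [if_pos h1]
      exact mem_filter.2 ⟨hr.1, h2⟩
  refine (card_le_card hsub).trans ((card_union_le _ _).trans ?_)
  apply Nat.add_le_add_left
  split_ifs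
  · exact lin_card m N p hp hc
  · simp

lemma Q2_perA (m N z : ℕ) (hc : N.Coprime m) : PerA (Q2 m N z) 3 := by
  refine ⟨fun p n => Q2_per m N z p n, fun p hp => ?_⟩
  have h1 := rhoA_le_ro m N z p hp hc
  have h2 := ro_quad_le (-2) p hp
  split_ifs at h1 <;> omega

lemma rhoA_eq_ro (m N z p : ℕ) (hp : p.Prime) (hz : z < p) (h2 : 2 < p) :
    rhoA (Q2 m N z) p = ro (QF (-2)) 0 p := by
  classical
  rw [ro_two]
  unfold rhoA
  congr 1
  apply filter_congr
  intro r hr
  unfold Q2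
  constructor
  · rintro ⟨_, h | ⟨h, _⟩⟩
    · exact h
    · omega
  · intro h
    refine ⟨?_, Or.inl h⟩
    intro hd
    obtain ⟨t, ht⟩ := hd
    have h3 : (p : ℤ) ∣ 2 := by
      have h4 : (p : ℤ) ∣ (r : ℤ) ^ 2 := by
        rw [ht]
        push_cast
        exact ⟨t * (p * t), by ring⟩
      have := dvd_sub h4 h
      have e : (r : ℤ) ^ 2 - ((r : ℤ) ^ 2 - 2) = 2 := by ring
      rwa [e] at this
    have h4 : p ∣ 2 := by exact_mod_cast h3
    have := Nat.le_of_dvd (by norm_num) h4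
    omega

lemma rhoA_lt (m N z p : ℕ) (hp : p.Prime) (hc : N.Coprime m) (ho : Odd (N + m)) :
    rhoA (Q2 m N z) p + 2 ≤ p := by
  classical
  have hpp : Prime (p : ℤ) := Nat.prime_iff_prime_int.1 hp
  have hp1 : ¬ (p : ℤ) ∣ 1 := fun h => hpp.not_unit (isUnit_of_dvd_one h)
  have hp2 := hp.two_le
  -- a reduced class which is not removed
  obtain ⟨t, ht1, ht2, ht3⟩ : ∃ t : ℕ, 1 ≤ t ∧ t < p ∧ ¬ Q2 m N z p t := by
    by_cases h1 : Q2 m N z p 1
    · have h2 : (p : ℤ) ∣ (N : ℤ) - m := by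
        rcases h1 with h | ⟨_, h⟩
        · exfalso
          apply hp1
          have e : ((1 : ℕ) : ℤ) ^ 2 - 2 = -1 := by norm_num
          rw [e, dvd_neg] at h
          exact h
        · simpa using h
      refine ⟨p - 1, by omega, by omega, ?_⟩
      have hcast : ((p - 1 : ℕ) : ℤ) = p - 1 := by
        rw [Nat.cast_sub hp.one_le]
        simp
      rintro (h | ⟨_, h⟩)
      · rw [hcast] at h
        apply hp1
        have e : ((p : ℤ) - 1) ^ 2 - 2 = p * (p - 2) - 1 := by ring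
        rw [e] at h
        exact (dvd_sub_right (Dvd.intro _ rfl)).1 h
      · rw [hcast] at h
        have h3 : (p : ℤ) ∣ (N : ℤ) + m := by
          have e : (N : ℤ) - m * (p - 1) = (N + m) - p * m := by ring
          rw [e] at h
          exact (dvd_sub_left (Dvd.intro _ rfl)).1 h
        have h4 : (p : ℤ) ∣ 2 * N := by
          have := dvd_add h2 h3
          have e2 : (N : ℤ) - m + (N + m) = 2 * N := by ring
          rwa [e2] at this
        have h5 : (p : ℤ) ∣ 2 * m := by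
          have := dvd_sub h3 h2
          have e2 : (N : ℤ) + m - (N - m) = 2 * m := by ring
          rwa [e2] at this
        by_cases hp2 : p = 2
        · subst hp2
          have h6 : (2 : ℕ) ∣ N + m := by exact_mod_cast h3
          obtain ⟨t, ht⟩ := ho
          omega
        · have h6 : ¬ (p : ℤ) ∣ 2 := by
            intro h7
            have h8 : p ∣ 2 := by exact_mod_cast h7
            exact hp2 ((Nat.prime_dvd_prime_iff_eq hp Nat.prime_two).1 h8)
          have h7 : p ∣ N := by exact_mod_cast (hpp.dvd_or_dvd h4).resolve_left h6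
          have h8 : p ∣ m := by exact_mod_cast (hpp.dvd_or_dvd h5).resolve_left h6
          exact (Nat.Prime.not_coprime_iff_dvd.2 ⟨p, hp, h7, h8⟩) hc
    · exact ⟨1, le_rfl, by omega, h1⟩
  have hsub : (range p).filter (fun r => ¬ p ∣ r ∧ Q2 m N z p r) ⊆ ((range p).erase 0).erase t := by
    intro r hr
    rw [mem_filter] at hr
    rw [mem_erase, mem_erase]
    refine ⟨?_, ?_, hr.1⟩
    · rintro rfl
      exact ht3 hr.2.2
    · rintro rfl
      exact hr.2.1 (dvd_zero _)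
  have hcard := card_le_card hsub
  rw [card_erase_of_mem (by
    rw [mem_erase, mem_range]
    exact ⟨by omega, ht2⟩), card_erase_of_mem (mem_range.2 hp.pos), card_range] at hcard
  unfold rhoA
  omega

lemma one_sub_sum_le (P : Finset ℕ) (x : ℕ → ℝ) (h0 : ∀ p ∈ P, 0 ≤ x p) (h1 : ∀ p ∈ P, x p ≤ 1) :
    1 - ∑ p ∈ P, x p ≤ ∏ p ∈ P, (1 - x p) ∧ ∏ p ∈ P, (1 - x p) ≤ 1 := by
  classical
  induction P using Finset.induction_on with
  | empty => simp
  | insert a P ha ih =>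
    obtain ⟨i1, i2⟩ := ih (fun p hp => h0 p (mem_insert_of_mem hp)) (fun p hp => h1 p (mem_insert_of_mem hp))
    have e1 := h0 a (mem_insert_self _ _)
    have e2 := h1 a (mem_insert_self _ _)
    have hp0 : 0 ≤ ∏ p ∈ P, (1 - x p) := prod_nonneg fun p hp => by
      have := h1 p (mem_insert_of_mem hp)
      linarith
    rw [sum_insert ha, prod_insert ha]
    constructor <;> nlinarith

/-- the factors of the comparison -/
noncomputable def κf (p : ℕ) : ℝ := if p < 33 then 1 / 32 else 1 - 16 / (p : ℝ) ^ 2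

lemma κf_prod : ∃ c : ℝ, 0 < c ∧ ∀ P : Finset ℕ, c ≤ ∏ p ∈ P, κf p := by
  classical
  refine ⟨(1 / 32) ^ 33 * (1 / 2), by positivity, fun P => ?_⟩
  rw [← prod_filter_mul_prod_filter_not P (fun p => p < 33)]
  apply mul_le_mul
  · have h1 : ∏ p ∈ P.filter (fun p => p < 33), κf p = (1 / 32) ^ (P.filter (fun p => p < 33)).card := by
      rw [← prod_const]
      apply prod_congr rfl
      intro p hp
      unfold κf
      rw [if_pos (mem_filter.1 hp).2]
    rw [h1]
    apply pow_le_pow_of_le_one (by norm_num) (by norm_num)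
    calc (P.filter (fun p => p < 33)).card ≤ (range 33).card := by
          apply card_le_card
          intro p hp
          exact mem_range.2 (mem_filter.1 hp).2
      _ = 33 := card_range 33
  · have h1 : ∏ p ∈ P.filter (fun p => ¬ p < 33), κf p =
        ∏ p ∈ P.filter (fun p => ¬ p < 33), (1 - 16 / (p : ℝ) ^ 2) := by
      apply prod_congr rfl
      intro p hp
      unfold κf
      rw [if_neg (mem_filter.1 hp).2]
    rw [h1]
    have hge : ∀ p ∈ P.filter (fun p => ¬ p < 33), (33 : ℝ) ≤ p := by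
      intro p hp
      have := (mem_filter.1 hp).2
      push Not at this
      exact_mod_cast this
    have h2 := (one_sub_sum_le (P.filter (fun p => ¬ p < 33)) (fun p => 16 / (p : ℝ) ^ 2)
      (fun p _ => by positivity) (fun p hp => by
        have := hge p hp
        rw [div_le_one (by positivity)]
        nlinarith)).1
    refine le_trans ?_ h2
    have h3 : ∀ M : ℕ, ∑ p ∈ Ico 33 (33 + M), ((16 : ℝ) / (p : ℝ) ^ 2) ≤ 16 / 32 - 16 / (32 + (M : ℝ)) := by
      intro M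
      induction M with
      | zero => simp
      | succ M ih =>
        rw [← add_assoc, sum_Ico_succ_top (by omega)]
        have h4 : (16 : ℝ) / ((33 + M : ℕ) : ℝ) ^ 2 ≤ 16 / (32 + (M : ℝ)) - 16 / (32 + ((M + 1 : ℕ) : ℝ)) := by
          have hM : (0 : ℝ) ≤ M := Nat.cast_nonneg M
          push_cast
          rw [div_sub_div _ _ (by positivity) (by positivity), div_le_div_iff₀ (by positivity) (by positivity)]
          nlinarith
        linarith
    have h5 : ∑ p ∈ P.filter (fun p => ¬ p < 33), ((16 : ℝ) / (p : ℝ) ^ 2) ≤ 1 / 2 := by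
      have h6 : P.filter (fun p => ¬ p < 33) ⊆ Ico 33 (33 + (P.sup id + 1)) := by
        intro p hp
        rw [mem_Ico]
        have h7 := mem_filter.1 hp
        have h8 : p ≤ P.sup id := le_sup (f := id) h7.1
        omega
      have h7 := sum_le_sum_of_subset_of_nonneg h6 (f := fun p : ℕ => 16 / (p : ℝ) ^ 2)
        (fun _ _ _ => by positivity)
      have h8 := h3 (P.sup id + 1)
      have h9 : (0 : ℝ) ≤ 16 / (32 + ((P.sup id + 1 : ℕ) : ℝ)) := by positivity
      have h10 : (16 : ℝ) / 32 = 1 / 2 := by norm_num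
      linarith
    linarith
  · positivity
  · apply prod_nonneg
    intro p hp
    unfold κf
    rw [if_pos (mem_filter.1 hp).2]
    norm_num

lemma fac_low (m N z p : ℕ) (hp : p.Prime) (hc : N.Coprime m) (ho : Odd (N + m)) :
    κf p * ((if p ≤ z then 1 - 1 / (p : ℝ) else 1) * (1 - (ro (QF (-2)) 0 p : ℝ) / p)) ≤
      1 - (rhoA (Q2 m N z) p : ℝ) / ((p : ℝ) - 1) := by
  have hp2 : (2 : ℝ) ≤ p := by exact_mod_cast hp.two_le
  have hp0 : (0 : ℝ) < p := by linarith
  have hp1 : (0 : ℝ) < (p : ℝ) - 1 := by linarith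
  have hlt := rhoA_lt m N z p hp hc ho
  have hle := rhoA_le_ro m N z p hp hc
  have hr2 := ro_quad_le (-2) p hp
  set r := ro (QF (-2)) 0 p with hr
  set R := rhoA (Q2 m N z) p with hR
  have hr0 : (0 : ℝ) ≤ r := Nat.cast_nonneg _
  have hr2' : (r : ℝ) ≤ 2 := by exact_mod_cast hr2
  have hrp : (r : ℝ) ≤ p := by
    have : r ≤ p := Pool.Agent.Y882.PX.ro_le_self _ _ _
    exact_mod_cast this
  have hb0 : 0 ≤ 1 - (r : ℝ) / p := by
    rw [sub_nonneg, div_le_one hp0]
    exact hrp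
  have hb1 : 1 - (r : ℝ) / p ≤ 1 := by
    have : 0 ≤ (r : ℝ) / p := by positivity
    linarith
  have hd0 : 0 ≤ (if p ≤ z then 1 - 1 / (p : ℝ) else 1) := by
    split_ifs
    · rw [sub_nonneg, div_le_one hp0]
      linarith
    · norm_num
  have hd1 : (if p ≤ z then 1 - 1 / (p : ℝ) else 1) ≤ 1 := by
    split_ifs
    · have : 0 ≤ 1 / (p : ℝ) := by positivity
      linarith
    · exact le_rfl
  by_cases h33 : p < 33
  · unfold κf
    rw [if_pos h33]
    have h1 : (R : ℝ) ≤ (p : ℝ) - 2 := by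
      have : ((R + 2 : ℕ) : ℝ) ≤ p := by exact_mod_cast hlt
      push_cast at this
      linarith
    have h2 : (1 : ℝ) / 32 ≤ 1 - (R : ℝ) / ((p : ℝ) - 1) := by
      have h3 : (R : ℝ) / ((p : ℝ) - 1) ≤ ((p : ℝ) - 2) / ((p : ℝ) - 1) :=
        div_le_div_of_nonneg_right h1 hp1.le
      have h4 : ((p : ℝ) - 2) / ((p : ℝ) - 1) = 1 - 1 / ((p : ℝ) - 1) := by
        field_simp
        ring
      have h5 : (1 : ℝ) / 32 ≤ 1 / ((p : ℝ) - 1) := by
        apply one_div_le_one_div_of_le hp1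
        have : (p : ℝ) ≤ 32 := by exact_mod_cast (by omega : p ≤ 32)
        linarith
      rw [h4] at h3
      linarith
    refine le_trans ?_ h2
    calc (1 : ℝ) / 32 * ((if p ≤ z then 1 - 1 / (p : ℝ) else 1) * (1 - (r : ℝ) / p)) ≤
        1 / 32 * (1 * 1) := by
          apply mul_le_mul_of_nonneg_left _ (by norm_num)
          exact mul_le_mul hd1 hb1 hb0 zero_le_one
      _ = 1 / 32 := by norm_num
  · unfold κf
    rw [if_neg h33]
    have hp33 : (33 : ℝ) ≤ p := by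
      have : 33 ≤ p := by omega
      exact_mod_cast this
    set x : ℝ := 1 / (p : ℝ) with hx
    have hx0 : 0 < x := by positivity
    have hx1 : x ≤ 1 / 33 := one_div_le_one_div_of_le (by norm_num) hp33
    have hpx : (p : ℝ) = 1 / x := by rw [hx]; field_simp
    have hrx : (r : ℝ) / p = r * x := by rw [hx]; ring
    have hx2 : 16 / (p : ℝ) ^ 2 = 16 * x ^ 2 := by rw [hx]; field_simp
    rw [hrx, hx2]
    -- `1 / (p - 1) = x / (1 - x)`
    have hinv : 1 / ((p : ℝ) - 1) ≤ x + 2 * x ^ 2 := by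
      rw [div_le_iff₀ hp1, hpx]
      have h6 : (x + 2 * x ^ 2) * (1 / x - 1) = 1 + x - 2 * x ^ 2 := by
        field_simp
        ring
      rw [h6]
      nlinarith
    have hdiv : (R : ℝ) / ((p : ℝ) - 1) = R * (1 / ((p : ℝ) - 1)) := by ring
    rw [hdiv]
    by_cases hz : p ≤ z
    · rw [if_pos hz] at hle ⊢
      have h1 : (R : ℝ) ≤ r + 1 := by exact_mod_cast hle
      have h2 : (R : ℝ) * (1 / ((p : ℝ) - 1)) ≤ (r + 1) * (x + 2 * x ^ 2) :=
        mul_le_mul h1 hinv (by positivity) (by linarith)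
      have h3 : (1 - 16 * x ^ 2) * ((1 - x) * (1 - r * x)) ≤ 1 - (r + 1) * (x + 2 * x ^ 2) := by
        have e1 : (1 - x) * (1 - r * x) = 1 - (r + 1) * x + r * x ^ 2 := by ring
        have e2 : 1 / 2 ≤ (1 - x) * (1 - r * x) := by
          rw [e1]
          have : (r + 1) * x ≤ 3 * x := mul_le_mul_of_nonneg_right (by linarith) hx0.le
          have : 0 ≤ r * x ^ 2 := by positivity
          nlinarith
        have e3 : 16 * x ^ 2 * (1 / 2) ≤ 16 * x ^ 2 * ((1 - x) * (1 - r * x)) :=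
          mul_le_mul_of_nonneg_left e2 (by positivity)
        have e4 : r * x ^ 2 ≤ 2 * x ^ 2 := mul_le_mul_of_nonneg_right hr2' (by positivity)
        nlinarith
      linarith
    · rw [if_neg hz] at hle ⊢
      have h1 : (R : ℝ) ≤ r := by exact_mod_cast hle
      have h2 : (R : ℝ) * (1 / ((p : ℝ) - 1)) ≤ r * (x + 2 * x ^ 2) :=
        mul_le_mul h1 hinv (by positivity) (by linarith)
      have h3 : (1 - 16 * x ^ 2) * (1 * (1 - r * x)) ≤ 1 - r * (x + 2 * x ^ 2) := by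
        have e2 : 1 / 2 ≤ 1 - r * x := by
          have : r * x ≤ 2 * x := mul_le_mul_of_nonneg_right hr2' hx0.le
          linarith
        have e3 : 16 * x ^ 2 * (1 / 2) ≤ 16 * x ^ 2 * (1 - r * x) :=
          mul_le_mul_of_nonneg_left e2 (by positivity)
        have e4 : r * x ^ 2 ≤ 2 * x ^ 2 := mul_le_mul_of_nonneg_right hr2' (by positivity)
        nlinarith
      linarith

/-- the lower bound for the product of the local factors -/
theorem prod_lowQ : ∃ c : ℝ, 0 < c ∧ ∀ (m N z Y : ℕ) (ε : ℝ), 3 ≤ Y → N.Coprime m → Odd (N + m) →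
    c * Vz z / Real.log Y ≤ ∏ p ∈ PZ Y ε, (1 - (rhoA (Q2 m N z) p : ℝ) / ((p : ℝ) - 1)) := by
  classical
  obtain ⟨c1, hc1, h1⟩ := κf_prod
  obtain ⟨c2, hc2, h2⟩ := lo_quad (-2) (by
    rw [neg_neg]
    rintro ⟨t, ht⟩
    have h3 : t * t = 2 := ht.symm
    have h4 : t ≤ 1 := by nlinarith
    have h5 : -1 ≤ t := by nlinarith
    interval_cases t <;> omega)
  refine ⟨c1 * c2, by positivity, fun m N z Y ε hY hc ho => ?_⟩
  have hlY : 0 < Real.log Y := Real.log_pos (by exact_mod_cast (by omega : 1 < Y))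
  have hPZ : ∀ p ∈ PZ Y ε, p.Prime := fun p hp => (PZ_facts Y (by omega) ε p hp).1
  have hPZs : PZ Y ε ⊆ (Icc 1 Y).filter Nat.Prime := by
    intro p hp
    obtain ⟨h3, h4, -⟩ := PZ_facts Y (by omega) ε p hp
    rw [mem_filter, mem_Icc]
    exact ⟨⟨h3.one_le, h4⟩, h3⟩
  have hro : ∀ p : ℕ, p.Prime → 0 ≤ 1 - (ro (QF (-2)) 0 p : ℝ) / p ∧
      1 - (ro (QF (-2)) 0 p : ℝ) / p ≤ 1 := by
    intro p hp
    have hp0 : (0 : ℝ) < p := by exact_mod_cast hp.pos
    have : ro (QF (-2)) 0 p ≤ p := Pool.Agent.Y882.PX.ro_le_self _ _ _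
    have h5 : (ro (QF (-2)) 0 p : ℝ) ≤ p := by exact_mod_cast this
    have h6 : 0 ≤ (ro (QF (-2)) 0 p : ℝ) / p := by positivity
    have h7 : (ro (QF (-2)) 0 p : ℝ) / p ≤ 1 := by
      rw [div_le_one hp0]
      exact h5
    constructor <;> linarith
  have hd : ∀ p : ℕ, p.Prime → 0 ≤ 1 - 1 / (p : ℝ) ∧ 1 - 1 / (p : ℝ) ≤ 1 := by
    intro p hp
    have hp0 : (1 : ℝ) ≤ p := by exact_mod_cast hp.one_le
    have h7 : 1 / (p : ℝ) ≤ 1 := by
      rw [div_le_one (by linarith)]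
      exact hp0
    have h6 : 0 ≤ 1 / (p : ℝ) := by positivity
    constructor <;> linarith
  have e1 : ∏ p ∈ PZ Y ε, (κf p * ((if p ≤ z then 1 - 1 / (p : ℝ) else 1) *
      (1 - (ro (QF (-2)) 0 p : ℝ) / p))) ≤
      ∏ p ∈ PZ Y ε, (1 - (rhoA (Q2 m N z) p : ℝ) / ((p : ℝ) - 1)) := by
    apply Finset.prod_le_prod
    · intro p hp
      have hpp := hPZ p hp
      apply mul_nonneg
      · unfold κf
        split_ifs with h33
        · norm_num
        · have : (33 : ℝ) ≤ p := by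
            have : 33 ≤ p := by omega
            exact_mod_cast this
          rw [sub_nonneg, div_le_one (by positivity)]
          nlinarith
      · apply mul_nonneg
        · split_ifs
          · exact (hd p hpp).1
          · norm_num
        · exact (hro p hpp).1
    · intro p hp
      exact fac_low m N z p (hPZ p hp) hc ho
  rw [prod_mul_distrib, prod_mul_distrib] at e1
  have e2 : Vz z ≤ ∏ p ∈ PZ Y ε, (if p ≤ z then 1 - 1 / (p : ℝ) else 1) := by
    rw [prod_ite, prod_const_one, mul_one]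
    unfold Vz
    have hs : (PZ Y ε).filter (fun p => p ≤ z) ⊆ pz z := by
      intro p hp
      rw [mem_filter] at hp
      exact mem_pz.2 ⟨hp.2, hPZ p hp.1⟩
    rw [← prod_sdiff hs]
    calc (∏ p ∈ pz z \ (PZ Y ε).filter (fun p => p ≤ z), (1 - 1 / (p : ℝ))) *
        ∏ p ∈ (PZ Y ε).filter (fun p => p ≤ z), (1 - 1 / (p : ℝ)) ≤
        1 * ∏ p ∈ (PZ Y ε).filter (fun p => p ≤ z), (1 - 1 / (p : ℝ)) := by
          apply mul_le_mul_of_nonneg_right
          · apply prod_le_one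
            · intro p hp
              exact (hd p (mem_pz.1 (mem_sdiff.1 hp).1).2).1
            · intro p hp
              exact (hd p (mem_pz.1 (mem_sdiff.1 hp).1).2).2
          · exact prod_nonneg fun p hp => (hd p (hPZ p (mem_filter.1 hp).1)).1
      _ = _ := one_mul _
  have e3 : c2 / Real.log Y ≤ ∏ p ∈ PZ Y ε, (1 - (ro (QF (-2)) 0 p : ℝ) / p) := by
    refine (h2 Y hY).trans ?_
    unfold lo
    rw [← prod_sdiff hPZs]
    calc (∏ p ∈ (Icc 1 Y).filter Nat.Prime \ PZ Y ε, (1 - (ro (QF (-2)) 0 p : ℝ) / p)) *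
        ∏ p ∈ PZ Y ε, (1 - (ro (QF (-2)) 0 p : ℝ) / p) ≤
        1 * ∏ p ∈ PZ Y ε, (1 - (ro (QF (-2)) 0 p : ℝ) / p) := by
          apply mul_le_mul_of_nonneg_right
          · apply prod_le_one
            · intro p hp
              exact (hro p (mem_filter.1 (mem_sdiff.1 hp).1).2).1
            · intro p hp
              exact (hro p (mem_filter.1 (mem_sdiff.1 hp).1).2).2
          · exact prod_nonneg fun p hp => (hro p (hPZ p hp)).1
      _ = _ := one_mul _
  refine le_trans ?_ e1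
  have hV := Vz_pos z
  calc c1 * c2 * Vz z / Real.log Y = c1 * (Vz z * (c2 / Real.log Y)) := by ring
    _ ≤ _ := by
        apply mul_le_mul (h1 _) _ (by positivity) (hc1.le.trans (h1 _))
        exact mul_le_mul e2 e3 (by positivity) (hV.le.trans e2)

/-- regularity of the densities -/
theorem mer_Q2 (ε₁ υ η : ℝ) (hε : 0 < ε₁) (hυ : υ ≤ 1) (hη : 0 < η) : ∃ Y0 : ℕ, ∀ Y : ℕ,
    Y0 ≤ Y → ∀ m N z : ℕ, (z : ℝ) < (Y : ℝ) ^ ε₁ →
    Mer (pr Y ε₁ υ) (tt Y) (fun p => (rhoA (Q2 m N z) p : ℝ) / ((p : ℝ) - 1)) ε₁ υ η := by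
  classical
  obtain ⟨Y1, h1⟩ := mer_quad (-2) (by
    rw [neg_neg]
    rintro ⟨t, ht⟩
    have h3 : t * t = 2 := ht.symm
    have h4 : t ≤ 1 := by nlinarith
    have h5 : -1 ≤ t := by nlinarith
    interval_cases t <;> omega) ε₁ υ (η / 2) hε hυ (by linarith)
  have ev1 : ∀ᶠ Y : ℕ in atTop, 16 / η + 3 ≤ (Y : ℝ) ^ ε₁ :=
    ((tendsto_rpow_atTop hε).comp tendsto_natCast_atTop_atTop).eventually_ge_atTop _
  obtain ⟨Y2, h2⟩ := eventually_atTop.1 (ev1.and (eventually_ge_atTop 3))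
  refine ⟨max Y1 Y2, fun Y hY m N z hz => ?_⟩
  have hmer := h1 Y ((le_max_left _ _).trans hY)
  obtain ⟨e1, e2⟩ := h2 Y ((le_max_right _ _).trans hY)
  have hY2 : 2 ≤ Y := by omega
  have hη16 : 0 < 16 / η := by positivity
  -- facts about the primes
  have hpr : ∀ p ∈ pr Y ε₁ υ, p.Prime ∧ (Y : ℝ) ^ ε₁ ≤ p := by
    intro p hp
    unfold pr at hp
    rw [mem_filter] at hp
    refine ⟨hp.2.1, ?_⟩
    by_contra hlt
    push Not at hlt
    have := (tt_lt Y p ε₁ hY2 hp.2.1.pos).2 hlt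
    linarith [hp.2.2.1]
  intro a b ha hab hb
  have h3 := hmer a b ha hab hb
  set G := (pr Y ε₁ υ).filter (fun p => a ≤ tt Y p ∧ tt Y p < b) with hG
  have hGp : ∀ p ∈ G, p.Prime ∧ (Y : ℝ) ^ ε₁ ≤ p := fun p hp => hpr p (mem_filter.1 hp).1
  have h4 : |∑ p ∈ G, (rhoA (Q2 m N z) p : ℝ) / ((p : ℝ) - 1) - ∑ p ∈ G, (ro (QF (-2)) 0 p : ℝ) / p| ≤
      η / 2 := by
    rw [← sum_sub_distrib]
    refine (abs_sum_le_sum_abs _ _).trans ?_
    have h5 : ∀ p ∈ G, |(rhoA (Q2 m N z) p : ℝ) / ((p : ℝ) - 1) - (ro (QF (-2)) 0 p : ℝ) / p| ≤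
        4 * (1 / ((p : ℝ) - 1) - 1 / (p : ℝ)) := by
      intro p hp
      obtain ⟨hpp, hpY⟩ := hGp p hp
      have hp3 : (3 : ℝ) ≤ p := by linarith
      have hpz : z < p := by
        have : (z : ℝ) < p := lt_of_lt_of_le hz hpY
        exact_mod_cast this
      have hp3' : 2 < p := by
        have : (2 : ℝ) < p := by linarith
        exact_mod_cast this
      rw [rhoA_eq_ro m N z p hpp hpz hp3']
      have hr2 : (ro (QF (-2)) 0 p : ℝ) ≤ 2 := by exact_mod_cast ro_quad_le (-2) p hpp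
      have hr0 : (0 : ℝ) ≤ ro (QF (-2)) 0 p := Nat.cast_nonneg _
      have e : (ro (QF (-2)) 0 p : ℝ) / ((p : ℝ) - 1) - (ro (QF (-2)) 0 p : ℝ) / p =
          (ro (QF (-2)) 0 p : ℝ) * (1 / ((p : ℝ) - 1) - 1 / (p : ℝ)) := by ring
      have h6 : 0 ≤ 1 / ((p : ℝ) - 1) - 1 / (p : ℝ) := by
        rw [sub_nonneg]
        apply one_div_le_one_div_of_le <;> linarith
      rw [e, abs_of_nonneg (mul_nonneg hr0 h6)]
      exact mul_le_mul_of_nonneg_right (by linarith) h6
    refine (sum_le_sum h5).trans ?_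
    rw [← mul_sum]
    -- telescoping sum over the integers `≥ k0`
    set k0 : ℕ := ⌈(Y : ℝ) ^ ε₁⌉₊ with hk0
    have hk0r : (Y : ℝ) ^ ε₁ ≤ k0 := Nat.le_ceil _
    have hk02 : 3 ≤ k0 := by
      have : (3 : ℝ) ≤ k0 := by linarith
      exact_mod_cast this
    have htel : ∀ M : ℕ, ∑ p ∈ Ico k0 (k0 + M), (1 / ((p : ℝ) - 1) - 1 / (p : ℝ)) =
        1 / ((k0 : ℝ) - 1) - 1 / ((k0 : ℝ) + M - 1) := by
      intro M
      induction M with
      | zero => simp
      | succ M ih =>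
        rw [← add_assoc, sum_Ico_succ_top (by omega), ih]
        push_cast
        ring
    have hsub : G ⊆ Ico k0 (k0 + (Y + 1)) := by
      intro p hp
      rw [mem_Ico]
      have h7 : p ≤ Y := by
        have h8 := (mem_filter.1 hp).1
        unfold pr at h8
        rw [mem_filter, mem_Icc] at h8
        exact h8.1.2
      refine ⟨?_, by omega⟩
      rw [hk0]
      exact Nat.ceil_le.2 (hGp p hp).2
    have h7 := sum_le_sum_of_subset_of_nonneg hsub (f := fun p : ℕ => 1 / ((p : ℝ) - 1) - 1 / (p : ℝ))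
      (fun p hp _ => by
        rw [mem_Ico] at hp
        have : (3 : ℝ) ≤ p := by exact_mod_cast (by omega : 3 ≤ p)
        rw [sub_nonneg]
        apply one_div_le_one_div_of_le <;> linarith)
    rw [htel] at h7
    have hk0r3 : (3 : ℝ) ≤ k0 := by exact_mod_cast hk02
    have h8 : 0 ≤ 1 / ((k0 : ℝ) + ((Y + 1 : ℕ) : ℝ) - 1) := by
      apply one_div_nonneg.2
      have : (0 : ℝ) ≤ ((Y + 1 : ℕ) : ℝ) := Nat.cast_nonneg _
      linarith
    have h9 : 1 / ((k0 : ℝ) - 1) ≤ η / 16 := by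
      rw [div_le_div_iff₀ (by linarith) (by norm_num)]
      have h10 : 16 / η ≤ (k0 : ℝ) - 1 := by linarith
      rw [div_le_iff₀ hη] at h10
      linarith
    linarith
  have h5 : ∑ p ∈ G, (rhoA (Q2 m N z) p : ℝ) / ((p : ℝ) - 1) - Real.log (b / a) =
      (∑ p ∈ G, (rhoA (Q2 m N z) p : ℝ) / ((p : ℝ) - 1) - ∑ p ∈ G, (ro (QF (-2)) 0 p : ℝ) / p) +
      (∑ p ∈ G, (ro (QF (-2)) 0 p : ℝ) / p - Real.log (b / a)) := by ring
  rw [h5]
  refine (abs_add_le _ _).trans ?_
  linarith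

end Pool.Agent.NH18.QP
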