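import Pool.Agent.H373R2.T7.Sys7
import Pool.Agent.NH18.QP.B3

/-! The pointwise lower bound. -/

set_option autoImplicit false

namespace Pool.Agent.NH18.QP

open Finset Filter
open Pool.Agent.H373R2.T7
open Pool.Agent.H442R2.KF (piN piAP Er)
open Pool.Agent.W23.DC
open Pool.Agent.Y882
open Pool.Agent.Y882.KW
open Pool.Agent.Y882.PX (ro ro_eq)
open Pool.Agent.Y882.SI

lemma pr_facts (Y : ℕ) (hY : 2 ≤ Y) (ζ υ : ℝ) (p : ℕ) (hp : p ∈ pr Y ζ υ) :
    p.Prime ∧ p ≤ Y ∧ (Y : ℝ) ^ ζ ≤ p ∧ tt Y p < υ := by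
  unfold pr at hp
  rw [mem_filter, mem_Icc] at hp
  refine ⟨hp.2.1, hp.1.2, ?_, hp.2.2.2⟩
  by_contra hlt
  push Not at hlt
  have := (tt_lt Y p ζ hY hp.2.1.pos).2 hlt
  linarith [hp.2.2.1]

/-- the weights are bounded -/
lemma WW_bound (ζ υ a b : ℝ) (hζ : 0 < ζ) (hb : 0 ≤ b) (ha : 0 ≤ a) (hab : b * υ ≤ a) (Y : ℕ)
    (hY : 2 ≤ Y) (N : ℕ) (hN : N ≠ 0) (hNY : N ≤ Y ^ 2) :
    |WW Y ζ υ a b N| ≤ 1 + a * (2 / ζ) := by
  classical
  have hYr : (2 : ℝ) ≤ Y := by exact_mod_cast hY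
  have hY0 : (0 : ℝ) < Y := by linarith
  have h1 := WW_le_one Y ζ υ a b hb hab N
  have hζ2 : 0 ≤ a * (2 / ζ) := by positivity
  rw [abs_le]
  refine ⟨?_, by linarith⟩
  set P := (pr Y ζ υ).filter (fun q => q ∣ N) with hP
  have hPc : (P.card : ℝ) ≤ 2 / ζ := by
    have hdvd : (∏ p ∈ P, p) ∣ N := Finset.prod_primes_dvd N
      (fun p hp => Nat.prime_iff.1 (pr_facts Y hY ζ υ p (mem_filter.1 hp).1).1)
      (fun p hp => (mem_filter.1 hp).2)
    have hle := (Nat.le_of_dvd (Nat.pos_of_ne_zero hN) hdvd).trans hNY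
    have h2 : ((Y : ℝ) ^ ζ) ^ P.card ≤ (Y : ℝ) ^ (2 : ℕ) := by
      calc ((Y : ℝ) ^ ζ) ^ P.card = ∏ _p ∈ P, (Y : ℝ) ^ ζ := by rw [prod_const]
        _ ≤ ∏ p ∈ P, (p : ℝ) := by
            apply Finset.prod_le_prod (fun _ _ => by positivity)
            intro p hp
            exact (pr_facts Y hY ζ υ p (mem_filter.1 hp).1).2.2.1
        _ = ((∏ p ∈ P, p : ℕ) : ℝ) := by rw [Nat.cast_prod]
        _ ≤ ((Y ^ 2 : ℕ) : ℝ) := Nat.cast_le.2 hle
        _ = _ := by push_cast; ring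
    rw [← Real.rpow_natCast, ← Real.rpow_natCast, ← Real.rpow_mul hY0.le] at h2
    have h3 := (Real.rpow_le_rpow_left_iff (by linarith)).1 h2
    rw [le_div_iff₀ hζ]
    push_cast at h3
    linarith
  have hS : ∑ q ∈ pr Y ζ υ, (a - b * tt Y q) * (if q ∣ N then (1 : ℝ) else 0) ≤ a * (2 / ζ) := by
    calc ∑ q ∈ pr Y ζ υ, (a - b * tt Y q) * (if q ∣ N then (1 : ℝ) else 0) =
        ∑ q ∈ P, (a - b * tt Y q) := by
          rw [hP, sum_filter]
          apply sum_congr rfl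
          intro q _
          split_ifs <;> ring
      _ ≤ ∑ _q ∈ P, a := by
          apply sum_le_sum
          intro q hq
          have h2 := pr_facts Y hY ζ υ q (mem_filter.1 hq).1
          have h3 : 0 ≤ tt Y q := by
            unfold tt
            apply div_nonneg (Real.log_natCast_nonneg _) (Real.log_natCast_nonneg _)
          have := mul_nonneg hb h3
          linarith
      _ = P.card * a := by rw [sum_const, nsmul_eq_mul]
      _ ≤ (2 / ζ) * a := mul_le_mul_of_nonneg_right hPc ha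
      _ = _ := by ring
  unfold WW
  split_ifs
  · linarith
  · linarith

lemma piN_eq (y : ℕ) : piN y = Nat.primeCounting y := by
  unfold piN
  rw [Nat.primeCounting, Nat.primeCounting', Nat.count_eq_card_filter_range]
  congr 1
  ext p
  rw [mem_filter, mem_filter, mem_Icc, mem_range]
  constructor
  · rintro ⟨⟨_, h1⟩, h2⟩
    exact ⟨by omega, h2⟩
  · rintro ⟨h1, h2⟩
    exact ⟨⟨h2.one_le, by omega⟩, h2⟩

/-- Chebyshev -/
lemma cheb : ∃ y0 : ℕ, ∀ y : ℕ, y0 ≤ y → (y : ℝ) / (2 * Real.log y) ≤ piN y := by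
  have h1 : ∀ᶠ y : ℕ in atTop, Real.log ((y : ℝ) + 1) ≤ (y : ℝ) * (0.1 : ℝ) := by
    have h2 : Tendsto (fun x : ℝ => Real.log x / x) atTop (nhds 0) := by
      have := (isLittleO_log_rpow_atTop (zero_lt_one' ℝ)).tendsto_div_nhds_zero
      simpa using this
    have h3 := h2.eventually_le_const (show (0 : ℝ) < 0.05 by norm_num)
    have h4 : Tendsto (fun y : ℕ => (y : ℝ) + 1) atTop atTop :=
      tendsto_atTop_add_const_right _ _ tendsto_natCast_atTop_atTop
    filter_upwards [h4.eventually h3, eventually_ge_atTop 1] with y hy hy1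
    have hy1r : (1 : ℝ) ≤ y := by exact_mod_cast hy1
    rw [div_le_iff₀ (by linarith)] at hy
    linarith
  obtain ⟨y1, h2⟩ := eventually_atTop.1 h1
  refine ⟨max y1 3, fun y hy => ?_⟩
  have h3 := h2 y ((le_max_left _ _).trans hy)
  have hy3 : 3 ≤ y := (le_max_right _ _).trans hy
  have hyr : (3 : ℝ) ≤ y := by exact_mod_cast hy3
  have hly : 0 < Real.log y := Real.log_pos (by linarith)
  have h4 := Chebyshev.psi_ge y
  have h5 := Chebyshev.psi_le_primeCounting_mul_log y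
  have h6 := Real.log_two_gt_d9
  rw [piN_eq, div_le_iff₀ (by positivity)]
  have h7 : (y : ℝ) * 0.6 ≤ y * Real.log 2 := mul_le_mul_of_nonneg_left (by linarith) (by linarith)
  nlinarith

open Classical in
/-- the weight -/
noncomputable def wt (Y : ℕ) (ζ υ a b : ℝ) (n : ℕ) : ℝ :=
  if n.Prime ∧ Nat.sqrt Y < n ∧ ¬ Bad (-2) Y ζ υ n then WW Y ζ υ a b (n ^ 2 - 2) else 0

/-- **the pointwise lower bound** -/
theorem pointwise (τ ζ υ aw bw τ' : ℝ) (hζ : 0 < ζ) (h2 : 2 * ζ < τ)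
    (h4 : τ ≤ 4 * ζ) (hτ1 : τ ≤ 1) (hζυ : ζ ≤ υ) (hυτ : υ < τ) (ha : 0 ≤ aw) (hb : 0 ≤ bw)
    (hab : bw * υ ≤ aw)
    (hJ0 : ∫ x in ζ..υ, (aw - bw * x) / (τ - x) / x < Real.log (τ / ζ - 1) / τ)
    (h5 : τ < τ') (h6 : τ' < 1 / 2) (m : ℕ) (hm : 1 ≤ m) : ∃ c : ℝ, 0 < c ∧ ∀ E : ℕ, ∃ M0 : ℕ,
    ∀ M : ℕ, M0 ≤ M → ∀ z : ℕ, 1 ≤ z → (z : ℝ) ≤ Real.log M ^ E → ∀ N : ℕ, M / 4 < N → N ≤ M →
    N.Coprime m → Odd (N + m) →
    c * M / Real.log M ^ 2 ≤ ∑ n ∈ Icc 1 M, wt M ζ υ aw bw n * lamzI z ((N : ℤ) - m * n) := by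
  classical
  obtain ⟨ε₁, η, f, hε₁, hε₁ζ, hη, hf, HS⟩ := sieveP 3 (by norm_num) τ ζ υ aw bw τ' hζ h2 h4 hτ1
    hζυ hυτ ha hb hab hJ0 h5 h6
  obtain ⟨C, hC, Y0, HS⟩ := HS 4
  obtain ⟨c1, hc1, hprod⟩ := prod_lowQ
  have hυ1 : υ ≤ 1 := by linarith
  obtain ⟨Y1, hmer⟩ := mer_Q2 ε₁ υ η hε₁ hυ1 hη
  obtain ⟨Y2, hbad⟩ := bad_count (-2) (by norm_num) ζ υ hζ hζυ hυ1
  obtain ⟨y0, hcheb⟩ := cheb
  have hmr : (1 : ℝ) ≤ m := by exact_mod_cast hm
  have hm0 : (0 : ℝ) < m := by linarith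
  refine ⟨f * c1 / (64 * m), by positivity, fun E => ?_⟩
  obtain ⟨n1, hVz⟩ := Vz_inv_small E
  have ev1 : ∀ᶠ M : ℕ in atTop, Real.log M ^ E < (M : ℝ) ^ ε₁ := by
    have h1 : Tendsto (fun x : ℝ => Real.log x ^ ((E : ℕ) : ℝ) / x ^ ε₁) atTop (nhds 0) := by
      have := isLittleO_log_rpow_rpow_atTop (((E : ℕ) : ℝ)) hε₁
      exact this.tendsto_div_nhds_zero
    have h2 := h1.eventually_lt_const (show (0 : ℝ) < 1 by norm_num)
    filter_upwards [tendsto_natCast_atTop_atTop.eventually (h2.and (eventually_gt_atTop (0 : ℝ)))]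
      with M hM
    obtain ⟨h3, h4⟩ := hM
    rw [div_lt_one (by positivity), Real.rpow_natCast] at h3
    exact h3
  have ev2 : ∀ᶠ M : ℕ in atTop, 8 * Real.log M ^ 4 ≤ (M : ℝ) ^ ζ := by
    have h1 : Tendsto (fun x : ℝ => Real.log x ^ ((4 : ℕ) : ℝ) / x ^ ζ) atTop (nhds 0) := by
      have := isLittleO_log_rpow_rpow_atTop (((4 : ℕ) : ℝ)) hζ
      exact this.tendsto_div_nhds_zero
    have h2 := h1.eventually_lt_const (show (0 : ℝ) < 1 / 8 by norm_num)
    filter_upwards [tendsto_natCast_atTop_atTop.eventually (h2.and (eventually_gt_atTop (0 : ℝ)))]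
      with M hM
    obtain ⟨h3, h4⟩ := hM
    rw [div_lt_iff₀ (by positivity), Real.rpow_natCast] at h3
    linarith
  obtain ⟨n2, hev⟩ := eventually_atTop.1 (ev1.and ev2)
  obtain ⟨n3, hL3⟩ := ev_L' (64 * m * (C + 1) / (f * c1) + 16)
  obtain ⟨n4, hL4⟩ := ev_log' 4 (32 * m)
  refine ⟨Y0 + Y1 + Y2 + n1 + n2 + n3 + n4 + 16 * m * (y0 + 2) + 16, ?_⟩
  intro M hM z hz1 hz2 N hN1 hN2 hcop hodd
  have hmy : 16 * m * (y0 + 2) ≤ M := by omega
  have hM16m : 16 * m ≤ M := by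
    have : 16 * m ≤ 16 * m * (y0 + 2) := Nat.le_mul_of_pos_right _ (by omega)
    omega
  have hM3 : 3 ≤ M := by omega
  have hMr : (16 : ℝ) ≤ M := by exact_mod_cast (by omega : 16 ≤ M)
  have hM0 : (0 : ℝ) < M := by linarith
  obtain ⟨e1, e2⟩ := hev M (by omega)
  have e3 := hL3 M (by omega)
  have e4 := hL4 M (by omega)
  have hV := hVz M (by omega) z hz1 hz2
  have hVp := Vz_pos z
  have hL0' : 0 ≤ 64 * (m : ℝ) * (C + 1) / (f * c1) := by positivity
  have hL16 : 16 ≤ Real.log M := by linarith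
  have hL0 : 0 < Real.log M := by linarith
  set L := Real.log M with hLd
  -- the range of the primes
  set y : ℕ := (N - 1) / m with hy
  have hyM : y ≤ M := (Nat.div_le_self _ _).trans (by omega)
  have hNm : N ≤ m * y + m := by
    have h3 := Nat.div_add_mod (N - 1) m
    have h4 := Nat.mod_lt (N - 1) (show 0 < m by omega)
    rw [← hy] at h3
    omega
  have hyN : m * y < N := by
    have h3 : m * ((N - 1) / m) ≤ N - 1 := Nat.mul_div_le _ _
    rw [← hy] at h3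
    omega
  have hylow : (M : ℝ) / (8 * m) ≤ y := by
    rw [div_le_iff₀ (by positivity)]
    have h3 : M ≤ 4 * N := by omega
    have h4 : M + M ≤ 8 * (m * y) + 8 * m + 8 * 0 := by
      have : 2 * M ≤ 8 * N := by omega
      omega
    have h5 : (M : ℝ) + M ≤ 8 * (m * y) + 8 * m := by exact_mod_cast h4
    have h6 : (16 : ℝ) * m ≤ M := by exact_mod_cast hM16m
    nlinarith
  have hsq : ((Nat.sqrt M : ℕ) : ℝ) ≤ √(M : ℝ) := Real.nat_sqrt_le_real_sqrt
  have hL4' : L ^ 4 ≥ 16 * L := by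
    have : L ^ 4 = L * L ^ 3 := by ring
    have h3 : (16 : ℝ) ≤ L ^ 3 := by
      calc (16 : ℝ) ≤ L := hL16
        _ = L ^ 1 := (pow_one L).symm
        _ ≤ L ^ 3 := pow_le_pow_right₀ (by linarith) (by norm_num)
    nlinarith
  have hs0 : 0 ≤ √(M : ℝ) := Real.sqrt_nonneg _
  have hss : √(M : ℝ) * √(M : ℝ) = M := Real.mul_self_sqrt hM0.le
  -- `√M ≤ M / (32 m L)`
  have hsqM : √(M : ℝ) ≤ M / (32 * m * L) := by
    rw [le_div_iff₀ (by positivity)]
    have h3 : 32 * m * L ≤ √(M : ℝ) := by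
      refine le_trans ?_ e4
      have : L ≤ L ^ 4 := by linarith
      exact mul_le_mul_of_nonneg_left this (by positivity)
    calc √(M : ℝ) * (32 * m * L) ≤ √(M : ℝ) * √(M : ℝ) := mul_le_mul_of_nonneg_left h3 hs0
      _ = M := hss
  have hsy : Nat.sqrt M ≤ y := by
    have h3 : (M : ℝ) / (32 * m * L) ≤ M / (8 * m) := by
      apply div_le_div_of_nonneg_left hM0.le (by positivity)
      nlinarith
    have h4 : ((Nat.sqrt M : ℕ) : ℝ) ≤ y := by linarith
    exact_mod_cast h4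
  have hyy0 : y0 ≤ y := by
    have h3 : 2 * (y0 + 2) ≤ y := by
      have h4 : (M : ℝ) ≤ y * (8 * m) := by
        rwa [div_le_iff₀ (by positivity)] at hylow
      have h5 : M ≤ y * (8 * m) := by exact_mod_cast h4
      have h6 : (2 * (y0 + 2)) * (8 * m) ≤ y * (8 * m) := by
        calc (2 * (y0 + 2)) * (8 * m) = 16 * m * (y0 + 2) := by ring
          _ ≤ M := hmy
          _ ≤ _ := h5
      exact Nat.le_of_mul_le_mul_right h6 (by omega)
    omega
  have hpi : (M : ℝ) / (32 * m * L) ≤ piN y - piN (Nat.sqrt M) := by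
    have h3 := hcheb y hyy0
    have hy1 : (1 : ℝ) < y := by
      have : 2 ≤ y := by
        have h4 : (2 : ℝ) ≤ (M : ℝ) / (8 * m) := by
          rw [le_div_iff₀ (by positivity)]
          have : (16 : ℝ) * m ≤ M := by exact_mod_cast hM16m
          linarith
        have : (2 : ℝ) ≤ y := h4.trans hylow
        exact_mod_cast this
      exact_mod_cast (by omega : 1 < y)
    have h4 : Real.log y ≤ L := Real.log_le_log (by linarith) (by exact_mod_cast hyM)
    have h5 : (M : ℝ) / (8 * m) / (2 * L) ≤ y / (2 * Real.log y) := by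
      apply div_le_div₀ (by linarith) hylow (mul_pos two_pos (Real.log_pos hy1))
      linarith
    have h6 : (piN (Nat.sqrt M) : ℝ) ≤ √(M : ℝ) := by
      refine le_trans ?_ hsq
      unfold Pool.Agent.H442R2.KF.piN
      have : ((Icc 1 (Nat.sqrt M)).filter (fun p : ℕ => p.Prime)).card ≤ Nat.sqrt M := by
        refine (card_filter_le _ _).trans ?_
        simp
      exact_mod_cast this
    have h7 : (M : ℝ) / (8 * m) / (2 * L) = 2 * (M / (32 * m * L)) := by
      field_simp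
      norm_num
    linarith
  -- the numbers whose divisors are counted
  set a : ℕ → ℕ := fun n => (n ^ 2 - 2) * ∏ p ∈ (pz z).filter (fun p : ℕ => (p : ℤ) ∣ (N : ℤ) - m * n), p
    with hadef
  have hJPf : ∀ n ∈ JP M y, n.Prime ∧ Nat.sqrt M < n ∧ n ≤ y ∧ 4 ≤ n ^ 2 := by
    intro n hn
    unfold JP at hn
    rw [mem_filter, mem_Ioc] at hn
    refine ⟨hn.2, hn.1.1, hn.1.2, ?_⟩
    have := hn.2.two_le
    nlinarith
  have hcast : ∀ n : ℕ, 4 ≤ n ^ 2 → (((n ^ 2 - 2 : ℕ)) : ℤ) = (n : ℤ) ^ 2 - 2 := by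
    intro n hn
    rw [Nat.cast_sub (by omega)]
    push_cast
    ring
  have hz_lt : (z : ℝ) < (M : ℝ) ^ ε₁ := lt_of_le_of_lt hz2 e1
  have haQ : ∀ n ∈ JP M y, ∀ p ∈ PZ M υ, p ∣ a n ↔ Q2 m N z p n := by
    intro n hn p hp
    obtain ⟨g1, g2, g3, g4⟩ := hJPf n hn
    obtain ⟨hpp, -, -⟩ := PZ_facts M (by omega) υ p hp
    rw [hadef]
    simp only
    rw [hpp.dvd_mul]
    unfold Q2
    have g5 : p ∣ n ^ 2 - 2 ↔ (p : ℤ) ∣ (n : ℤ) ^ 2 - 2 := by
      rw [← hcast n g4]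
      exact Int.natCast_dvd_natCast.symm
    rw [g5]
    apply or_congr_right
    rw [hpp.prime.dvd_finsetProd_iff]
    constructor
    · rintro ⟨q, hq, hpq⟩
      rw [mem_filter] at hq
      have hqp := (mem_pz.1 hq.1)
      have := (Nat.prime_dvd_prime_iff_eq hpp hqp.2).1 hpq
      subst this
      exact ⟨hqp.1, hq.2⟩
    · rintro ⟨g6, g7⟩
      exact ⟨p, mem_filter.2 ⟨mem_pz.2 ⟨g6, hpp⟩, g7⟩, dvd_rfl⟩
  have hperA := Q2_perA m N z hcop
  have hmain := HS M (by omega) y hsy hyM (Q2 m N z) hperA (hmer M (by omega) m N z hz_lt) a haQ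
  have hpl := hprod m N z M ε₁ hM3 hcop hodd
  -- lower bound for the sifted sum
  have hPi : 0 ≤ c1 * Vz z / L := by positivity
  have hlow : f * (M / (32 * m * L)) * (c1 * Vz z / L) - C * (M / L ^ 4) ≤
      ∑ n ∈ JP M y, WW M ζ υ aw bw (a n) := by
    refine le_trans ?_ hmain
    apply sub_le_sub_right
    apply mul_le_mul (mul_le_mul_of_nonneg_left hpi hf.le) hpl hPi
    apply mul_nonneg hf.le
    refine le_trans ?_ hpi
    positivity
  -- comparison with the weighted sum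
  have hcmp : ∑ n ∈ JP M y, WW M ζ υ aw bw (a n) ≤
      ∑ n ∈ (JP M y).filter (fun n => ¬ Bad (-2) M ζ υ n),
        (if ∀ p ∈ pz z, ¬ (p : ℤ) ∣ (N : ℤ) - m * n then WW M ζ υ aw bw (n ^ 2 - 2) else 0) +
      (((Icc 1 M).filter (Bad (-2) M ζ υ)).card : ℝ) := by
    rw [← sum_filter_add_sum_filter_not (JP M y) (fun n => ¬ Bad (-2) M ζ υ n)]
    apply add_le_add
    · apply sum_le_sum
      intro n hn
      obtain ⟨g1, g2, g3, g4⟩ := hJPf n (mem_filter.1 hn).1
      split_ifs with hcc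
      · have : a n = n ^ 2 - 2 := by
          rw [hadef]
          simp only
          rw [filter_false_of_mem (fun p hp => hcc p hp), prod_empty, mul_one]
        rw [this]
      · push Not at hcc
        obtain ⟨p, hp, hpd⟩ := hcc
        have hpp := (mem_pz.1 hp)
        have hdiv : p ∣ a n := by
          rw [hadef]
          exact Dvd.dvd.mul_left (dvd_prod_of_mem _ (mem_filter.2 ⟨hp, hpd⟩)) _
        have hpPZ : p ∈ PZ M ζ := by
          unfold PZ
          rw [mem_filter, mem_Icc]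
          have g5 : (p : ℝ) ≤ z := by exact_mod_cast hpp.1
          have hM1 : (1 : ℝ) ≤ M := by linarith
          have g6 : (M : ℝ) ^ ε₁ ≤ (M : ℝ) ^ ζ := Real.rpow_le_rpow_of_exponent_le hM1 hε₁ζ
          have g7 : (p : ℝ) < (M : ℝ) ^ ζ := by linarith
          refine ⟨⟨hpp.2.one_le, ?_⟩, hpp.2, (tt_lt M p ζ (by omega) hpp.2.pos).2 g7⟩
          have g8 : (M : ℝ) ^ ζ ≤ (M : ℝ) ^ (1 : ℝ) :=
            Real.rpow_le_rpow_of_exponent_le hM1 (by linarith)
          rw [Real.rpow_one] at g8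
          have g9 : (p : ℝ) ≤ M := by linarith
          exact_mod_cast g9
        unfold WW
        rw [if_neg (by push Not; exact ⟨p, hpPZ, hdiv⟩), zero_mul]
    · calc ∑ n ∈ (JP M y).filter (fun n => ¬ ¬ Bad (-2) M ζ υ n), WW M ζ υ aw bw (a n) ≤
          ∑ n ∈ (JP M y).filter (fun n => ¬ ¬ Bad (-2) M ζ υ n), (1 : ℝ) :=
            sum_le_sum fun n _ => WW_le_one M ζ υ aw bw hb hab _
        _ = (((JP M y).filter (fun n => ¬ ¬ Bad (-2) M ζ υ n)).card : ℝ) := by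
            rw [sum_const, nsmul_eq_mul, mul_one]
        _ ≤ _ := by
            have : (JP M y).filter (fun n => ¬ ¬ Bad (-2) M ζ υ n) ⊆
                (Icc 1 M).filter (Bad (-2) M ζ υ) := by
              intro n hn
              rw [mem_filter, not_not] at hn
              obtain ⟨g1, g2, g3, g4⟩ := hJPf n hn.1
              rw [mem_filter, mem_Icc]
              exact ⟨⟨g1.one_le, by omega⟩, hn.2⟩
            exact_mod_cast card_le_card this
  -- the sum of the model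
  have hmodel : ∑ n ∈ Icc 1 M, wt M ζ υ aw bw n * lamzI z ((N : ℤ) - m * n) =
      (Vz z)⁻¹ * ∑ n ∈ (JP M y).filter (fun n => ¬ Bad (-2) M ζ υ n),
        (if ∀ p ∈ pz z, ¬ (p : ℤ) ∣ (N : ℤ) - m * n then WW M ζ υ aw bw (n ^ 2 - 2) else 0) := by
    rw [mul_sum]
    symm
    have hsub : (JP M y).filter (fun n => ¬ Bad (-2) M ζ υ n) ⊆ Icc 1 M := by
      intro n hn
      obtain ⟨g1, g2, g3, g4⟩ := hJPf n (mem_filter.1 hn).1
      rw [mem_Icc]
      exact ⟨g1.one_le, by omega⟩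
    apply sum_subset_zero_on_sdiff hsub
    · intro n hn
      replace hn := (@Finset.mem_sdiff _ (_) _ _ _).1 hn
      rw [mem_Icc, mem_filter] at hn
      unfold wt
      by_cases hcond : n.Prime ∧ Nat.sqrt M < n ∧ ¬ Bad (-2) M ζ υ n
      · have hny : y < n := by
          by_contra hle
          push Not at hle
          apply hn.2
          unfold JP
          rw [mem_filter, mem_Ioc]
          exact ⟨⟨⟨hcond.2.1, hle⟩, hcond.1⟩, hcond.2.2⟩
        have hneg : (N : ℤ) - m * n ≤ 0 := by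
          have g5 : m * (y + 1) ≤ m * n := Nat.mul_le_mul_left _ hny
          have g6 : N ≤ m * n := by
            have : m * (y + 1) = m * y + m := by ring
            omega
          have g7 : (N : ℤ) ≤ m * n := by exact_mod_cast g6
          linarith
        have hneg1 : ¬ (1 : ℤ) ≤ (N : ℤ) - m * n := by
          intro hc
          linarith
        unfold lamzI
        rw [if_neg hneg1, mul_zero]
      · rw [if_neg hcond, zero_mul]
    · intro n hn
      obtain ⟨g1, g2, g3, g4⟩ := hJPf n (mem_filter.1 hn).1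
      have hpos : 1 ≤ (N : ℤ) - m * n := by
        have g5 : m * n ≤ m * y := Nat.mul_le_mul_left _ g3
        have g6 : m * n < N := by omega
        have g7 : ((m * n : ℕ) : ℤ) < N := by exact_mod_cast g6
        push_cast at g7
        omega
      unfold wt lamzI lamz
      have hc1 : n.Prime ∧ Nat.sqrt M < n ∧ ¬ Bad (-2) M ζ υ n := ⟨g1, g2, (mem_filter.1 hn).2⟩
      rw [if_pos hc1, if_pos hpos]
      have hiff : (∀ p ∈ pz z, ¬ p ∣ ((N : ℤ) - m * n).toNat) ↔
          ∀ p ∈ pz z, ¬ (p : ℤ) ∣ (N : ℤ) - m * n := by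
        apply forall₂_congr
        intro p _
        apply not_congr
        have g8 : ((((N : ℤ) - m * n).toNat : ℕ) : ℤ) = (N : ℤ) - m * n :=
          Int.toNat_of_nonneg (by omega)
        conv_rhs => rw [← g8]
        exact Int.natCast_dvd_natCast.symm
      by_cases hcc : ∀ p ∈ pz z, ¬ (p : ℤ) ∣ (N : ℤ) - m * n
      · rw [if_pos hcc, if_pos (hiff.2 hcc)]
        ring
      · rw [if_neg hcc, if_neg (fun h => hcc (hiff.1 h))]
        ring
  -- the number of the bad primes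
  have hbadc := hbad M (by omega) M
  have hbad2 : (((Icc 1 M).filter (Bad (-2) M ζ υ)).card : ℝ) ≤ M / L ^ 4 := by
    refine le_trans ?_ (show (M : ℝ) / (2 * L ^ 4) + M / (2 * L ^ 4) ≤ M / L ^ 4 by
      apply le_of_eq
      field_simp
      norm_num)
    refine hbadc.trans (add_le_add ?_ ?_)
    · have h7 : (M : ℝ) / (M : ℝ) ^ ζ ≤ M / (8 * L ^ 4) :=
        div_le_div_of_nonneg_left hM0.le (by positivity) e2
      calc 4 * ((M : ℝ) / (M : ℝ) ^ ζ) ≤ 4 * (M / (8 * L ^ 4)) := by linarith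
        _ = M / (2 * L ^ 4) := by
            field_simp
            norm_num
    · have h7 : (M : ℝ) ^ υ ≤ √(M : ℝ) := by
        rw [Real.sqrt_eq_rpow]
        exact Real.rpow_le_rpow_of_exponent_le (by linarith) (by linarith)
      rw [le_div_iff₀ (by positivity)]
      have h8 : 4 * L ^ 4 ≤ √(M : ℝ) := by
        refine le_trans ?_ e4
        apply mul_le_mul_of_nonneg_right _ (by positivity)
        linarith
      calc 2 * (M : ℝ) ^ υ * (2 * L ^ 4) ≤ 2 * √(M : ℝ) * (2 * L ^ 4) := by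
            apply mul_le_mul_of_nonneg_right _ (by positivity)
            linarith
        _ = √(M : ℝ) * (4 * L ^ 4) := by ring
        _ ≤ √(M : ℝ) * √(M : ℝ) := mul_le_mul_of_nonneg_left h8 hs0
        _ = M := hss
  rw [hmodel]
  have hfin : f * (M / (32 * m * L)) * (c1 * Vz z / L) - (C + 1) * (M / L ^ 4) ≤
      ∑ n ∈ (JP M y).filter (fun n => ¬ Bad (-2) M ζ υ n),
        (if ∀ p ∈ pz z, ¬ (p : ℤ) ∣ (N : ℤ) - m * n then WW M ζ υ aw bw (n ^ 2 - 2) else 0) := by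
    linarith
  have hVi0 : 0 ≤ (Vz z)⁻¹ := inv_nonneg.2 hVp.le
  refine le_trans ?_ (mul_le_mul_of_nonneg_left hfin hVi0)
  rw [mul_sub]
  have g1 : (Vz z)⁻¹ * (f * (M / (32 * m * L)) * (c1 * Vz z / L)) = f * c1 / (32 * m) * (M / L ^ 2) := by
    field_simp
  have g2 : (Vz z)⁻¹ * ((C + 1) * (M / L ^ 4)) ≤ (C + 1) * (M / L ^ 3) := by
    calc (Vz z)⁻¹ * ((C + 1) * (M / L ^ 4)) ≤ L * ((C + 1) * (M / L ^ 4)) :=
          mul_le_mul_of_nonneg_right hV (by positivity)
      _ = _ := by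
          field_simp
  have g3 : (C + 1) * (M / L ^ 3) ≤ f * c1 / (64 * m) * (M / L ^ 2) := by
    have g4 : 64 * m * (C + 1) / (f * c1) ≤ L := by linarith
    rw [div_le_iff₀ (by positivity)] at g4
    have g5 : (C + 1) ≤ f * c1 / (64 * m) * L := by
      rw [div_mul_eq_mul_div, le_div_iff₀ (by positivity)]
      linarith
    calc (C + 1) * (M / L ^ 3) ≤ (f * c1 / (64 * m) * L) * (M / L ^ 3) :=
          mul_le_mul_of_nonneg_right g5 (by positivity)
      _ = _ := by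
          field_simp
  rw [g1]
  have g6 : f * c1 / (64 * m) * M / L ^ 2 = f * c1 / (64 * m) * (M / L ^ 2) := by ring
  have g7 : f * c1 / (32 * m) * (M / L ^ 2) = 2 * (f * c1 / (64 * m) * (M / L ^ 2)) := by
    field_simp
    norm_num
  rw [g6, g7]
  linarith

end Pool.Agent.NH18.QP
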