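import Pool.Agent.NH18.QP.B4
import Pool.Agent.H373R2.T7.PB3
import Pool.Agent.Y882.KW.Alm
import Pool.Agent.Y882.KW.Num

/-! For almost all `N` there are many primes `q` such that `N - m q` is prime and `q ^ 2 - 2` has at
most five prime factors. -/

set_option autoImplicit false

namespace Pool.Agent.NH18.QP

open Finset Filter
open Pool.Agent.H373R2.T7
open Pool.Agent.H373R2.T7.TB (l1_one)
open Pool.Agent.W23.DC
open Pool.Agent.Y882
open Pool.Agent.Y882.KW
open Pool.Agent.Y882.SI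

/-- `q` and `N - m q` are primes, `q ^ 2 - 2` has at most five prime factors, all of them
`≥ M ^ (49/400)` -/
def Good (m M N q : ℕ) : Prop :=
  q.Prime ∧ ((N : ℤ) - m * q).toNat.Prime ∧ (q ^ 2 - 2).primeFactorsList.length ≤ 5 ∧
    ∀ ℓ : ℕ, ℓ.Prime → ℓ ∣ q ^ 2 - 2 → (M : ℝ) ^ ((49 : ℝ) / 400) ≤ ℓ

/-- the weight with the parameters for five prime factors -/
noncomputable def w5 (M n : ℕ) : ℝ :=
  wt M (49 / 400) (24 / 25 * (49 / 100)) (8 / 9) (8 / 9 / (24 / 25 * (49 / 100))) n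

lemma good_of (m M N q : ℕ) (hM : 2 ≤ M) (hq : q ≤ M) (h : 0 < w5 M q)
    (hp : ((N : ℤ) - m * q).toNat.Prime) : Good m M N q := by
  unfold w5 wt at h
  split_ifs at h with hc
  · obtain ⟨h1, h2, h3⟩ := hc
    have hq2 := h1.two_le
    have h4 : 4 ≤ q ^ 2 := by nlinarith
    have h5 : q ^ 2 - 2 ≠ 0 := by omega
    have hS : (((q ^ 2 - 2 : ℕ)) : ℝ) ≤ (M : ℝ) ^ (2 : ℝ) := by
      rw [show ((2 : ℝ)) = ((2 : ℕ) : ℝ) by norm_num, Real.rpow_natCast]
      exact_mod_cast (show q ^ 2 - 2 ≤ M ^ 2 from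
        (Nat.sub_le _ _).trans (Nat.pow_le_pow_left hq 2))
    have hsq : ∀ l ∈ pr M (49 / 400) (24 / 25 * (49 / 100)), ¬ l ^ 2 ∣ q ^ 2 - 2 := by
      intro l hl hd
      apply h3
      refine ⟨l, hl, ?_⟩
      have : ((q ^ 2 - 2 : ℕ) : ℤ) = (q : ℤ) ^ 2 + (-2) := by
        rw [Nat.cast_sub (by omega)]
        push_cast
        ring
      rw [← this]
      exact_mod_cast hd
    obtain ⟨h6, h7⟩ := almost M hM (49 / 400) (24 / 25 * (49 / 100)) (8 / 9) 2 5 (by norm_num)
      (by norm_num) (by norm_num) (by norm_num) (by norm_num) (q ^ 2 - 2) h5 hS h hsq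
    exact ⟨h1, hp, h6, h7⟩
  · exact absurd h (lt_irrefl _)

lemma w5_le (M n : ℕ) : w5 M n ≤ 1 := by
  unfold w5 wt
  split_ifs
  · exact WW_le_one _ _ _ _ _ (by norm_num) (by norm_num) _
  · norm_num

lemma w5_abs (M n : ℕ) (hM : 2 ≤ M) (hn : n ≤ M) : |w5 M n| ≤ 1 + 8 / 9 * (2 / (49 / 400)) := by
  unfold w5 wt
  split_ifs with h
  · have hq2 := h.1.two_le
    have h4 : 4 ≤ n ^ 2 := by nlinarith
    exact WW_bound _ _ _ _ (by norm_num) (by norm_num) (by norm_num) (by norm_num) M hM _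
      (by omega) ((Nat.sub_le _ _).trans (Nat.pow_le_pow_left hn 2))
  · rw [abs_zero]
    norm_num

open Classical in
theorem almostN (m : ℕ) (hm : 1 ≤ m) : ∃ c : ℝ, 0 < c ∧ ∀ U : ℕ, ∃ M0 : ℕ, ∀ M : ℕ, M0 ≤ M →
    (((Icc 1 M).filter (fun N : ℕ => M / 4 < N ∧ N.Coprime m ∧ Odd (N + m) ∧
      (((Icc 1 M).filter (Good m M N)).card : ℝ) < c * M / Real.log M ^ 3)).card : ℝ) ≤
      M / Real.log M ^ U := by
  have hcond : ∫ x in (49 / 400 : ℝ)..(24 / 25 * (49 / 100)),
      (8 / 9 - 8 / 9 / (24 / 25 * (49 / 100)) * x) / (49 / 100 - x) / x <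
        Real.log (49 / 100 / (49 / 400) - 1) / (49 / 100) := by
    have := cond_A (49 / 100) (8 / 9) (by norm_num) (by norm_num) (by norm_num)
    have e : (49 / 100 : ℝ) / 4 = 49 / 400 := by norm_num
    rw [e] at this
    exact this
  obtain ⟨c, hc, hpt⟩ := pointwise (49 / 100) (49 / 400) (24 / 25 * (49 / 100)) (8 / 9)
    (8 / 9 / (24 / 25 * (49 / 100))) (499 / 1000) (by norm_num) (by norm_num) (by norm_num)
    (by norm_num) (by norm_num) (by norm_num) (by norm_num) (by norm_num) (by norm_num) hcond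
    (by norm_num) (by norm_num) m hm
  have hmr : (1 : ℝ) ≤ m := by exact_mod_cast hm
  have hdegG : (Polynomial.C (m : ℤ) * Polynomial.X : Polynomial ℤ).natDegree = 1 :=
    Polynomial.natDegree_C_mul_X _ (by exact_mod_cast (by omega : m ≠ 0))
  have hlcG : 0 < (Polynomial.C (m : ℤ) * Polynomial.X : Polynomial ℤ).leadingCoeff := by
    rw [Polynomial.leadingCoeff_C_mul_X]
    exact_mod_cast (by omega : 0 < m)
  have hev : ∀ n : ℤ, (Polynomial.C (m : ℤ) * Polynomial.X : Polynomial ℤ).eval n = m * n := by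
    intro n
    simp
  refine ⟨c / 2, by positivity, fun U => ?_⟩
  obtain ⟨B0, h1⟩ := l1_one (Polynomial.C (m : ℤ) * Polynomial.X) (by rw [hdegG]) hlcG 1 le_rfl
    (U + 3)
  obtain ⟨N0, h1⟩ := h1 (B0 + 1)
  obtain ⟨M1, h2⟩ := hpt (B0 + 1)
  obtain ⟨n1, h3⟩ := ev_L' (1 + 8 / 9 * (2 / (49 / 400)) + 2 / c + 2)
  refine ⟨N0 + M1 + n1 + 4, fun M hM => ?_⟩
  have hL := h3 M (by omega)
  have hl1 := h1 M (by omega) M (by rw [hdegG, one_mul, pow_one])
    (by rw [hdegG, one_mul, pow_one])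
  have hp2 := h2 M (by omega)
  clear h1 h2 h3 hpt
  have hM0 : (0 : ℝ) < M := by exact_mod_cast (by omega : 0 < M)
  obtain ⟨L, hLd⟩ : ∃ L, L = Real.log M := ⟨_, rfl⟩
  rw [← hLd] at hL hl1 hp2 ⊢
  have hc2 : 0 < 2 / c := by positivity
  have hL2 : 2 ≤ L := by linarith
  have hL1 : 1 ≤ L := by linarith
  have hL0 : 0 < L := by linarith
  obtain ⟨z, hz⟩ : ∃ z, z = ⌈L ^ B0⌉₊ := ⟨_, rfl⟩
  have hz1 : L ^ B0 ≤ z := by rw [hz]; exact Nat.le_ceil _
  have hz2 : (z : ℝ) ≤ L ^ (B0 + 1) := by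
    have h5 : (z : ℝ) < L ^ B0 + 1 := by rw [hz]; exact Nat.ceil_lt_add_one (by positivity)
    have h6 : 1 ≤ L ^ B0 := one_le_pow₀ hL1
    calc (z : ℝ) ≤ L ^ B0 + 1 := h5.le
      _ ≤ L ^ B0 * 2 := by linarith
      _ ≤ L ^ B0 * L := mul_le_mul_of_nonneg_left hL2 (by positivity)
      _ = L ^ (B0 + 1) := by rw [pow_succ]
  have hz1' : 1 ≤ z := by
    have h6 : 1 ≤ L ^ B0 := one_le_pow₀ hL1
    exact_mod_cast h6.trans hz1
  have hw : ∀ n ∈ Icc 1 M, |w5 M n| ≤ L := by
    intro n hn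
    rw [mem_Icc] at hn
    refine (w5_abs M n (by omega) hn.2).trans ?_
    linarith
  have hl := hl1 z hz1 hz2 (w5 M) hw
  have hcard := markov (Icc 1 M) (fun N => |∑ n ∈ Icc 1 M, w5 M n *
      (lamP ((N : ℤ) - (Polynomial.C (m : ℤ) * Polynomial.X : Polynomial ℤ).eval (n : ℤ)) -
        lamzI z ((N : ℤ) - (Polynomial.C (m : ℤ) * Polynomial.X : Polynomial ℤ).eval (n : ℤ)))|)
    (fun N _ => abs_nonneg _) ((M : ℝ) / L ^ 3) (M / L ^ U) (by positivity) (by
      refine hl.trans (le_of_eq ?_)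
      rw [pow_add]
      field_simp)
  refine le_trans ?_ hcard
  have hfin : ((Icc 1 M).filter (fun N : ℕ => M / 4 < N ∧ N.Coprime m ∧ Odd (N + m) ∧
      (((Icc 1 M).filter (Good m M N)).card : ℝ) < c / 2 * M / L ^ 3)).card ≤
      ((Icc 1 M).filter (fun N : ℕ => (M : ℝ) / L ^ 3 < |∑ n ∈ Icc 1 M, w5 M n *
      (lamP ((N : ℤ) - (Polynomial.C (m : ℤ) * Polynomial.X : Polynomial ℤ).eval (n : ℤ)) -
        lamzI z ((N : ℤ) - (Polynomial.C (m : ℤ) * Polynomial.X : Polynomial ℤ).eval (n : ℤ)))|)).card := by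
    apply card_le_card
    intro N hN
    rw [mem_filter] at hN ⊢
    obtain ⟨hN, hN4, hcop, hodd, hfew⟩ := hN
    refine ⟨hN, ?_⟩
    by_contra hle
    push Not at hle
    rw [mem_Icc] at hN
    have hp := hp2 z hz1' hz2 N hN4 hN.2 hcop hodd
    have e1 : ∑ n ∈ Icc 1 M, w5 M n *
        (lamP ((N : ℤ) - (Polynomial.C (m : ℤ) * Polynomial.X : Polynomial ℤ).eval (n : ℤ)) -
        lamzI z ((N : ℤ) - (Polynomial.C (m : ℤ) * Polynomial.X : Polynomial ℤ).eval (n : ℤ))) =
        ∑ n ∈ Icc 1 M, w5 M n * lamP ((N : ℤ) - m * n) -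
          ∑ n ∈ Icc 1 M, w5 M n * lamzI z ((N : ℤ) - m * n) := by
      rw [← sum_sub_distrib]
      apply sum_congr rfl
      intro n _
      rw [hev]
      ring
    rw [e1] at hle
    have h5 := (abs_le.1 hle).1
    have h6 : ∑ n ∈ Icc 1 M, w5 M n * lamP ((N : ℤ) - m * n) ≤
        (((Icc 1 M).filter (Good m M N)).card : ℝ) * L := by
      calc ∑ n ∈ Icc 1 M, w5 M n * lamP ((N : ℤ) - m * n) ≤
          ∑ n ∈ Icc 1 M, (if Good m M N n then L else 0) := by
            apply sum_le_sum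
            intro n hn
            rw [mem_Icc] at hn
            have h7 := lamP_nonneg ((N : ℤ) - m * n)
            by_cases h8 : 0 < w5 M n
            · by_cases h9 : ((N : ℤ) - m * n).toNat.Prime
              · rw [if_pos (good_of m M N n (by omega) hn.2 h8 h9)]
                have h10 : lamP ((N : ℤ) - m * n) ≤ L := by
                  unfold lamP
                  rw [if_pos h9, hLd]
                  apply Real.log_le_log (by exact_mod_cast h9.pos)
                  have h11 : ((N : ℤ) - m * n).toNat ≤ M := by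
                    have : (0 : ℤ) ≤ m * n := by positivity
                    omega
                  exact_mod_cast h11
                calc w5 M n * lamP ((N : ℤ) - m * n) ≤ 1 * lamP ((N : ℤ) - m * n) :=
                      mul_le_mul_of_nonneg_right (w5_le M n) h7
                  _ ≤ L := by rw [one_mul]; exact h10
              · have h10 : lamP ((N : ℤ) - m * n) = 0 := by
                  unfold lamP
                  rw [if_neg h9]
                rw [h10, mul_zero]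
                split_ifs
                · exact hL0.le
                · exact le_rfl
            · push Not at h8
              refine (mul_nonpos_of_nonpos_of_nonneg h8 h7).trans ?_
              split_ifs
              · exact hL0.le
              · exact le_rfl
        _ = _ := by rw [← sum_filter, sum_const, nsmul_eq_mul]
    have h7 : c * M / L ^ 2 ≤ ∑ n ∈ Icc 1 M, w5 M n * lamzI z ((N : ℤ) - m * n) := hp
    have h8 : (M : ℝ) / L ^ 3 ≤ c / 2 * M / L ^ 2 := by
      rw [div_le_div_iff₀ (by positivity) (by positivity)]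
      have h9 : 2 / c ≤ L := by linarith
      rw [div_le_iff₀ hc] at h9
      have h10 : (0 : ℝ) < M * L ^ 2 := by positivity
      nlinarith
    have h9 : c * M / L ^ 2 = c / 2 * M / L ^ 2 + c / 2 * M / L ^ 2 := by ring
    have h10 : c / 2 * M / L ^ 2 ≤ (((Icc 1 M).filter (Good m M N)).card : ℝ) * L := by linarith
    have h11 : c / 2 * M / L ^ 3 * L = c / 2 * M / L ^ 2 := by
      field_simp
    have h12 : (((Icc 1 M).filter (Good m M N)).card : ℝ) * L < c / 2 * M / L ^ 3 * L :=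
      mul_lt_mul_of_pos_right hfew hL0
    linarith
  exact_mod_cast hfin

end Pool.Agent.NH18.QP
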